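import Mathlib

/-!
A sharp `L¹` inequality for analytic polynomials on the circle.
-/

set_option autoImplicit false

open Filter Topology MeasureTheory Metric Complex
open scoped ENNReal ComplexConjugate

namespace Pool.Agent.Helper35

/-- The circle `ℝ/ℤ`. -/
abbrev T1 : Type := AddCircle (1 : ℝ)

/-- The normalised Haar measure on the circle. -/
noncomputable abbrev haarT : Measure T1 := AddCircle.haarAddCircle

theorem integral_fourier_eq_circleAverage (g : ℂ → ℂ) :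
    ∫ t : T1, g (fourier 1 t) ∂haarT = Real.circleAverage g 0 1 := by
  rw [AddCircle.integral_haarAddCircle]
  have h := AddCircle.intervalIntegral_preimage (1 : ℝ) 0 (fun t : T1 => g (fourier 1 t))
  rw [← h, Real.circleAverage_def]
  simp only [inv_one, one_smul, zero_add]
  have h2 : ∀ a : ℝ, g (fourier 1 (a : T1)) = (fun θ : ℝ => g (circleMap 0 1 θ)) (2 * Real.pi * a) := by
    intro a
    simp only [fourier_coe_apply, circleMap, zero_add]
    congr 1
    push_cast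
    simp only [one_mul]
    congr 1
    ring
  rw [intervalIntegral.integral_congr (g := fun a : ℝ =>
    (fun θ : ℝ => g (circleMap 0 1 θ)) (2 * Real.pi * a)) (fun a _ => h2 a)]
  have h3 := intervalIntegral.integral_comp_mul_left (a := (0 : ℝ)) (b := 1)
    (fun θ : ℝ => g (circleMap 0 1 θ)) (c := 2 * Real.pi) (by positivity)
  rw [h3]
  simp

theorem norm_fourier_one (t : T1) : ‖(fourier 1 t : ℂ)‖ = 1 := by
  rw [fourier_one]; exact Circle.norm_coe _

theorem integral_holo (g : ℂ → ℂ) (hg : DiffContOnCl ℂ g (ball 0 1)) :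
    ∫ t : T1, g (fourier 1 t) ∂haarT = g 0 := by
  rw [integral_fourier_eq_circleAverage]
  have : DiffContOnCl ℂ g (ball 0 |(1 : ℝ)|) := by simpa using hg
  exact this.circleAverage

theorem integral_pow_fourier (n : ℕ) (hn : n ≠ 0) :
    ∫ t : T1, ((fourier 1 t : ℂ)) ^ n ∂haarT = 0 := by
  have := integral_holo (fun z => z ^ n) ((differentiable_id.pow n).diffContOnCl)
  simpa [hn] using this

theorem integral_conj_pow_fourier (n : ℕ) (hn : n ≠ 0) :
    ∫ t : T1, (conj (fourier 1 t : ℂ)) ^ n ∂haarT = 0 := by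
  have h := integral_pow_fourier n hn
  have h2 := congrArg conj h
  rw [← integral_conj] at h2
  simpa using h2

/-- The outer polynomial `N(z) = 1 + a z + \bar a b z^2 + b z^3`. -/
noncomputable def Nf (a b z : ℂ) : ℂ := 1 + a * z + conj a * b * z ^ 2 + b * z ^ 3

/-- The reversed polynomial of `N`. -/
noncomputable def Nr (a b z : ℂ) : ℂ := z ^ 3 + conj a * z ^ 2 + a * conj b * z + conj b

theorem Nf_ne_zero {a b z : ℂ} (ha : ‖a‖ < 1) (hb : ‖b‖ < 1) (hz : ‖z‖ ≤ 1) : Nf a b z ≠ 0 := by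
  have h1 : 0 < ‖1 + a * z‖ := by
    rw [norm_pos_iff]
    intro h
    have : ‖a * z‖ = 1 := by
      have : a * z = -1 := by linear_combination h
      rw [this]; simp
    rw [norm_mul] at this
    nlinarith [norm_nonneg a, norm_nonneg z]
  have h2 : ‖z + conj a‖ ≤ ‖1 + a * z‖ := by
    have e1 : ‖1 + a * z‖ ^ 2 - ‖z + conj a‖ ^ 2 = (1 - ‖z‖ ^ 2) * (1 - ‖a‖ ^ 2) := by
      rw [← Complex.normSq_eq_norm_sq, ← Complex.normSq_eq_norm_sq, ← Complex.normSq_eq_norm_sq,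
        ← Complex.normSq_eq_norm_sq]
      simp [Complex.normSq_apply]
      ring
    have e2 : 0 ≤ (1 - ‖z‖ ^ 2) * (1 - ‖a‖ ^ 2) := by
      apply mul_nonneg
      · nlinarith [norm_nonneg z]
      · nlinarith [norm_nonneg a]
    exact le_of_sq_le_sq (by linarith) (norm_nonneg _)
  intro h0
  have h3 : 1 + a * z = - (b * z ^ 2 * (z + conj a)) := by
    rw [Nf] at h0
    linear_combination h0
  have h4 : ‖1 + a * z‖ = ‖b‖ * ‖z‖ ^ 2 * ‖z + conj a‖ := by
    rw [h3]; simp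
  have h5 : ‖b‖ * ‖z‖ ^ 2 * ‖z + conj a‖ ≤ ‖b‖ * ‖1 + a * z‖ := by
    have : ‖z‖ ^ 2 ≤ 1 := by nlinarith [norm_nonneg z]
    calc ‖b‖ * ‖z‖ ^ 2 * ‖z + conj a‖ ≤ ‖b‖ * 1 * ‖1 + a * z‖ := by gcongr
      _ = _ := by ring
  nlinarith

theorem Nr_eq {a b z : ℂ} (hz : ‖z‖ = 1) : Nr a b z = z ^ 3 * conj (Nf a b z) := by
  have hzz : z * conj z = 1 := by
    rw [Complex.mul_conj, Complex.normSq_eq_norm_sq, hz]; simp
  simp only [Nr, Nf, map_add, map_one, map_mul, map_pow, Complex.conj_conj]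
  linear_combination (-(z ^ 2 * conj a) - a * conj b * z * (z * conj z + 1)
    - conj b * ((z * conj z) ^ 2 + z * conj z + 1)) * hzz

/-- Key duality estimate. -/
theorem key_est (a b : ℂ) (ha : ‖a‖ < 1) (hb : ‖b‖ < 1) (c0 c1 c2 c3 : ℂ) (r : ℂ → ℂ)
    (hr : Differentiable ℂ r) :
    ‖(1 - b * conj b) * ((1 - a * conj a) * c0 + conj a * c1) + conj b * c3‖ ≤
      ∫ t : T1, ‖(fun z : ℂ => c0 + c1 * z + c2 * z ^ 2 + c3 * z ^ 3 + z ^ 4 * r z) (fourier 1 t)‖
        ∂haarT := by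
  set f : ℂ → ℂ := fun z => c0 + c1 * z + c2 * z ^ 2 + c3 * z ^ 3 + z ^ 4 * r z with hf
  set h0 : ℂ := c0 * conj b with hh0
  set h1 : ℂ := c1 * conj b with hh1
  set h2 : ℂ := c0 * conj a * (1 - b * conj b) + c2 * conj b with hh2
  set h3 : ℂ := (1 - b * conj b) * ((1 - a * conj a) * c0 + conj a * c1) + conj b * c3 with hh3
  set S : ℂ → ℂ := fun z => r z * Nr a b z +
    ((c1 + conj a * c2 + a * conj b * c3 - (a * h3 + conj a * b * h2 + b * h1)) +
      (c2 + conj a * c3 - (conj a * b * h3 + b * h2)) * z + (c3 - b * h3) * z ^ 2) with hS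
  have hid : ∀ z, f z * Nr a b z = Nf a b z * (h0 + h1 * z + h2 * z ^ 2 + h3 * z ^ 3)
      + z ^ 4 * S z := by
    intro z
    simp only [hf, hS, hh0, hh1, hh2, hh3, Nf, Nr]
    ring
  -- the function `G = f * Nr / Nf`
  have hNd : Differentiable ℂ (Nf a b) := by unfold Nf; fun_prop
  have hNrd : Differentiable ℂ (Nr a b) := by unfold Nr; fun_prop
  have hSd : Differentiable ℂ S := by
    simp only [hS]; fun_prop
  have hQ : DiffContOnCl ℂ (fun z => z * (S z / Nf a b z)) (ball 0 1) := by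
    have hne : ∀ z ∈ closedBall (0 : ℂ) 1, Nf a b z ≠ 0 := fun z hz =>
      Nf_ne_zero ha hb (by simpa using hz)
    refine ⟨?_, ?_⟩
    · intro z hz
      exact ((differentiable_id z).mul ((hSd z).div (hNd z)
        (hne z (ball_subset_closedBall hz)))).differentiableWithinAt
    · rw [closure_ball _ one_ne_zero]
      intro z hz
      exact (continuous_id.continuousAt.mul ((hSd z).continuousAt.div (hNd z).continuousAt
        (hne z hz))).continuousWithinAt
  have hI : ∫ t : T1, (fun z => z * (S z / Nf a b z)) (fourier 1 t) ∂haarT = 0 := by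
    rw [integral_holo _ hQ]; simp
  have hpt : ∀ t : T1, (conj (fourier 1 t : ℂ)) ^ 3 * (f (fourier 1 t) * Nr a b (fourier 1 t)
      / Nf a b (fourier 1 t)) = h0 * (conj (fourier 1 t : ℂ)) ^ 3 + h1 * (conj (fourier 1 t : ℂ)) ^ 2
        + h2 * (conj (fourier 1 t : ℂ)) ^ 1 + h3
        + (fun z => z * (S z / Nf a b z)) (fourier 1 t) := by
    intro t
    set z : ℂ := fourier 1 t with hz
    have hz1 : ‖z‖ = 1 := norm_fourier_one t
    have hN : Nf a b z ≠ 0 := Nf_ne_zero ha hb hz1.le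
    have hzz : z * conj z = 1 := by
      rw [Complex.mul_conj, Complex.normSq_eq_norm_sq, hz1]; simp
    rw [hid z]
    have e1 : (Nf a b z * (h0 + h1 * z + h2 * z ^ 2 + h3 * z ^ 3) + z ^ 4 * S z) / Nf a b z
        = (h0 + h1 * z + h2 * z ^ 2 + h3 * z ^ 3) + z ^ 4 * (S z / Nf a b z) := by
      field_simp
    rw [e1]
    have e2 : conj z ^ 3 * z = conj z ^ 2 := by linear_combination (conj z ^ 2) * hzz
    have e3 : conj z ^ 3 * z ^ 2 = conj z ^ 1 := by
      linear_combination (conj z ^ 2 * z + conj z) * hzz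
    have e4 : conj z ^ 3 * z ^ 3 = 1 := by
      linear_combination ((z * conj z) ^ 2 + z * conj z + 1) * hzz
    have e5 : conj z ^ 3 * z ^ 4 = z := by
      linear_combination (z * ((z * conj z) ^ 2 + z * conj z + 1)) * hzz
    calc conj z ^ 3 * (h0 + h1 * z + h2 * z ^ 2 + h3 * z ^ 3 + z ^ 4 * (S z / Nf a b z))
        = h0 * conj z ^ 3 + h1 * (conj z ^ 3 * z) + h2 * (conj z ^ 3 * z ^ 2)
          + h3 * (conj z ^ 3 * z ^ 3) + (conj z ^ 3 * z ^ 4) * (S z / Nf a b z) := by ring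
      _ = _ := by rw [e2, e3, e4, e5]; ring
  have hcz : Continuous fun t : T1 => (fourier 1 t : ℂ) := (fourier 1).continuous
  have hcc : Continuous fun t : T1 => conj (fourier 1 t : ℂ) := Complex.continuous_conj.comp hcz
  have hNz : ∀ t : T1, Nf a b (fourier 1 t) ≠ 0 := fun t =>
    Nf_ne_zero ha hb (norm_fourier_one t).le
  have hcQ : Continuous fun t : T1 => (fun z => z * (S z / Nf a b z)) (fourier 1 t : ℂ) := by
    have := hSd.continuous
    have := hNd.continuous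
    exact hcz.mul ((hSd.continuous.comp hcz).div (hNd.continuous.comp hcz) hNz)
  have hint : ∀ g : T1 → ℂ, Continuous g → Integrable g haarT := fun g hg =>
    hg.integrable_of_hasCompactSupport (HasCompactSupport.of_compactSpace g)
  have hval : ∫ t : T1, (conj (fourier 1 t : ℂ)) ^ 3 * (f (fourier 1 t) * Nr a b (fourier 1 t)
      / Nf a b (fourier 1 t)) ∂haarT = h3 := by
    rw [integral_congr_ae (Eventually.of_forall hpt)]
    rw [integral_add (by exact hint _ (by fun_prop)) (by exact hint _ hcQ),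
      integral_add (by exact hint _ (by fun_prop)) (by exact hint _ (by fun_prop)),
      integral_add (by exact hint _ (by fun_prop)) (by exact hint _ (by fun_prop)),
      integral_add (by exact hint _ (by fun_prop)) (by exact hint _ (by fun_prop)), hI,
      integral_const_mul, integral_const_mul, integral_const_mul,
      integral_conj_pow_fourier 3 (by norm_num), integral_conj_pow_fourier 2 (by norm_num),
      integral_conj_pow_fourier 1 (by norm_num)]
    simp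
  rw [← hval]
  refine (norm_integral_le_integral_norm _).trans (le_of_eq ?_)
  refine integral_congr_ae (Eventually.of_forall fun t => ?_)
  have hz1 : ‖(fourier 1 t : ℂ)‖ = 1 := norm_fourier_one t
  have hN : ‖Nf a b (fourier 1 t)‖ ≠ 0 := norm_ne_zero_iff.mpr (hNz t)
  simp only [norm_mul, norm_pow, norm_div, RCLike.norm_conj, hz1, one_pow, one_mul]
  rw [Nr_eq hz1, norm_mul, norm_pow, hz1, RCLike.norm_conj]
  field_simp

/-- Elementary inequality used twice. Here `x, y, R ≥ 0` and `R² = x² + y²/2`. -/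
theorem elem_ineq {x y R : ℝ} (hx : 0 ≤ x) (hR : 0 < R) (hRR : R ^ 2 = x ^ 2 + y ^ 2 / 2) :
    R ≤ (1 - (y / (2 * R)) ^ 2) * x + y ^ 2 / (2 * R) := by
  have h1 : (1 - (y / (2 * R)) ^ 2) * x + y ^ 2 / (2 * R) - R
      = x * (R - x) ^ 2 / (2 * R ^ 2) := by
    have hy : y ^ 2 = 2 * (R ^ 2 - x ^ 2) := by linarith
    field_simp
    rw [hy]
    ring
  have h2 : 0 ≤ x * (R - x) ^ 2 / (2 * R ^ 2) := by positivity
  linarith

/-- The sharp `L¹` inequality. -/
theorem L1_ineq (c0 c1 c2 c3 : ℂ) (r : ℂ → ℂ) (hr : Differentiable ℂ r) :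
    ‖c0‖ ^ 2 + ‖c1‖ ^ 2 / 2 + ‖c3‖ ^ 2 / 2 ≤
      (∫ t : T1, ‖(fun z : ℂ => c0 + c1 * z + c2 * z ^ 2 + c3 * z ^ 3 + z ^ 4 * r z) (fourier 1 t)‖
        ∂haarT) ^ 2 := by
  set I := ∫ t : T1, ‖(fun z : ℂ => c0 + c1 * z + c2 * z ^ 2 + c3 * z ^ 3 + z ^ 4 * r z)
    (fourier 1 t)‖ ∂haarT with hI
  have hI0 : 0 ≤ I := integral_nonneg fun _ => norm_nonneg _
  -- choose a unimodular phase
  obtain ⟨u, hu, huc⟩ : ∃ u : ℂ, ‖u‖ = 1 ∧ c0 = u * ‖c0‖ := by
    by_cases h : c0 = 0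
    · exact ⟨1, by simp, by simp [h]⟩
    · refine ⟨c0 / ‖c0‖, ?_, ?_⟩
      · simp [h]
      · have : (‖c0‖ : ℂ) ≠ 0 := by simpa using h
        field_simp
  have huu : u * conj u = 1 := by
    rw [Complex.mul_conj, Complex.normSq_eq_norm_sq, hu]; simp
  -- two radii
  set R1 : ℝ := Real.sqrt (‖c0‖ ^ 2 + ‖c1‖ ^ 2 / 2) with hR1
  set R2 : ℝ := Real.sqrt (‖c0‖ ^ 2 + ‖c1‖ ^ 2 / 2 + ‖c3‖ ^ 2 / 2) with hR2
  have hR1s : R1 ^ 2 = ‖c0‖ ^ 2 + ‖c1‖ ^ 2 / 2 := Real.sq_sqrt (by positivity)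
  have hR2s : R2 ^ 2 = ‖c0‖ ^ 2 + ‖c1‖ ^ 2 / 2 + ‖c3‖ ^ 2 / 2 := Real.sq_sqrt (by positivity)
  have hR1n : 0 ≤ R1 := Real.sqrt_nonneg _
  have hR2n : 0 ≤ R2 := Real.sqrt_nonneg _
  rcases eq_or_lt_of_le hR2n with h0 | hpos
  · rw [← hR2s, ← h0]; nlinarith [sq_nonneg I]
  have hb1 : ‖c3‖ < 2 * R2 := by
    have : ‖c3‖ ^ 2 / 2 ≤ R2 ^ 2 := by
      rw [hR2s]; nlinarith [sq_nonneg ‖c0‖, sq_nonneg ‖c1‖]
    by_contra hcon
    push Not at hcon
    nlinarith
  set b : ℂ := conj u * c3 / (2 * R2) with hb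
  have hbn : ‖b‖ = ‖c3‖ / (2 * R2) := by
    rw [hb, norm_div, norm_mul, RCLike.norm_conj, hu]
    simp [abs_of_pos hpos]
  have hb_lt : ‖b‖ < 1 := by
    rw [hbn, div_lt_one (by positivity)]; exact hb1
  have hbc : conj b * c3 = u * ((‖c3‖ ^ 2 / (2 * R2) : ℝ) : ℂ) := by
    have h1 : (‖c3‖ : ℂ) ^ 2 = c3 * conj c3 := by
      rw [Complex.mul_conj, Complex.normSq_eq_norm_sq]; push_cast; ring
    have h2 : (R2 : ℂ) ≠ 0 := by exact_mod_cast hpos.ne'
    simp only [hb, map_div₀, map_mul, Complex.conj_conj, Complex.conj_ofReal, map_ofNat]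
    push_cast
    rw [h1]
    field_simp
  have hbb : (1 - b * conj b) = ((1 - (‖c3‖ / (2 * R2)) ^ 2 : ℝ) : ℂ) := by
    rw [Complex.mul_conj, Complex.normSq_eq_norm_sq, hbn]; push_cast; ring
  -- first stage
  obtain ⟨a, ha_lt, haval⟩ : ∃ a : ℂ, ‖a‖ < 1 ∧ ∃ v : ℝ, R1 ≤ v ∧
      (1 - a * conj a) * c0 + conj a * c1 = u * (v : ℂ) := by
    rcases eq_or_lt_of_le hR1n with h0 | hpos1
    · refine ⟨0, by simp, ‖c0‖, ?_, ?_⟩
      · rw [← h0]; exact norm_nonneg _
      · simp [← huc]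
    · have ha1 : ‖c1‖ < 2 * R1 := by
        have : ‖c1‖ ^ 2 / 2 ≤ R1 ^ 2 := by
          rw [hR1s]; nlinarith [sq_nonneg ‖c0‖]
        by_contra hcon
        push Not at hcon
        nlinarith
      set a : ℂ := conj u * c1 / (2 * R1) with ha
      have han : ‖a‖ = ‖c1‖ / (2 * R1) := by
        rw [ha, norm_div, norm_mul, RCLike.norm_conj, hu]
        simp [abs_of_pos hpos1]
      refine ⟨a, ?_, (1 - (‖c1‖ / (2 * R1)) ^ 2) * ‖c0‖ + ‖c1‖ ^ 2 / (2 * R1), ?_, ?_⟩
      · rw [han, div_lt_one (by positivity)]; exact ha1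
      · exact elem_ineq (norm_nonneg _) hpos1 hR1s
      · have h1 : (‖c1‖ : ℂ) ^ 2 = c1 * conj c1 := by
          rw [Complex.mul_conj, Complex.normSq_eq_norm_sq]; push_cast; ring
        have h2 : (R1 : ℂ) ≠ 0 := by exact_mod_cast hpos1.ne'
        have h3 : conj a * c1 = u * ((‖c1‖ ^ 2 / (2 * R1) : ℝ) : ℂ) := by
          simp only [ha, map_div₀, map_mul, Complex.conj_conj, Complex.conj_ofReal, map_ofNat]
          push_cast
          rw [h1]
          field_simp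
        have h4 : (1 - a * conj a) = ((1 - (‖c1‖ / (2 * R1)) ^ 2 : ℝ) : ℂ) := by
          rw [Complex.mul_conj, Complex.normSq_eq_norm_sq, han]; push_cast; ring
        rw [h3, h4]
        conv_lhs => rw [huc]
        push_cast
        ring
  obtain ⟨v, hv, hav⟩ := haval
  have hkey := key_est a b ha_lt hb_lt c0 c1 c2 c3 r hr
  rw [← hI, hav, hbc, hbb] at hkey
  have hfact : ((1 - (‖c3‖ / (2 * R2)) ^ 2 : ℝ) : ℂ) * (u * (v : ℂ)) +
      u * ((‖c3‖ ^ 2 / (2 * R2) : ℝ) : ℂ)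
      = u * (((1 - (‖c3‖ / (2 * R2)) ^ 2) * v + ‖c3‖ ^ 2 / (2 * R2) : ℝ) : ℂ) := by
    push_cast; ring
  rw [hfact, norm_mul, hu, one_mul, Complex.norm_real] at hkey
  have hRR : R2 ^ 2 = R1 ^ 2 + ‖c3‖ ^ 2 / 2 := by rw [hR1s, hR2s]
  have h5 := elem_ineq hR1n hpos hRR
  have h6 : 0 ≤ 1 - (‖c3‖ / (2 * R2)) ^ 2 := by
    rw [← hbn]; nlinarith [norm_nonneg b]
  have h7 : R2 ≤ (1 - (‖c3‖ / (2 * R2)) ^ 2) * v + ‖c3‖ ^ 2 / (2 * R2) := by
    have := mul_le_mul_of_nonneg_left hv h6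
    linarith
  have h8 : R2 ≤ I := h7.trans ((Real.le_norm_self _).trans hkey)
  rw [← hR2s]
  exact pow_le_pow_left₀ hR2n h8 2

end Pool.Agent.Helper35
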