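import Mathlib
import Pool.Agent.helper35.CircleIneq

/-!
Tensorisation of the sharp `L¹` inequality.
-/

set_option autoImplicit false

open Filter Topology MeasureTheory Metric Complex
open scoped ENNReal ComplexConjugate

namespace Pool.Agent.Helper35

/-- The weights `1, 1/2, 0, 1/2, 0, 0, ...`. -/
noncomputable def lam (j : ℕ) : ℝ := if j = 0 then 1 else if j = 1 ∨ j = 3 then 1 / 2 else 0

theorem lam_nonneg (j : ℕ) : 0 ≤ lam j := by
  unfold lam; split_ifs <;> norm_num

theorem fourier_natCast (n : ℕ) (t : T1) : (fourier (n : ℤ) t : ℂ) = (fourier 1 t : ℂ) ^ n := by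
  induction n with
  | zero => simp
  | succ n ih =>
    push_cast
    rw [fourier_add, ih, pow_succ]

/-- One-dimensional inequality for polynomials of degree `< E + 4`, sums over `range`. -/
theorem ineq_one_range (E : ℕ) (c : ℕ → ℂ) :
    ∑ j ∈ Finset.range (E + 4), lam j * ‖c j‖ ^ 2 ≤
      (∫ t : T1, ‖∑ j ∈ Finset.range (E + 4), c j * fourier (j : ℤ) t‖ ∂haarT) ^ 2 := by
  have h := L1_ineq (c 0) (c 1) (c 2) (c 3)
    (fun z => ∑ j ∈ Finset.range E, c (j + 4) * z ^ j) (by fun_prop)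
  have hL : ∑ j ∈ Finset.range (E + 4), lam j * ‖c j‖ ^ 2
      = ‖c 0‖ ^ 2 + ‖c 1‖ ^ 2 / 2 + ‖c 3‖ ^ 2 / 2 := by
    rw [Finset.sum_range_succ', Finset.sum_range_succ', Finset.sum_range_succ',
      Finset.sum_range_succ']
    have : ∀ j, lam (j + 1 + 1 + 1 + 1) = 0 := by
      intro j
      simp [lam]
    simp only [this, zero_mul, Finset.sum_const_zero]
    simp [lam]
    ring
  rw [hL]
  refine h.trans (le_of_eq ?_)
  congr 1
  refine integral_congr_ae (Eventually.of_forall fun t => ?_)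
  simp only [fourier_natCast]
  congr 1
  rw [Finset.sum_range_succ', Finset.sum_range_succ', Finset.sum_range_succ',
      Finset.sum_range_succ', Finset.mul_sum]
  have : ∀ j, c (j + 1 + 1 + 1 + 1) * (fourier 1 t : ℂ) ^ (j + 1 + 1 + 1 + 1)
      = (fourier 1 t : ℂ) ^ 4 * (c (j + 4) * (fourier 1 t : ℂ) ^ j) := by
    intro j; ring
  simp only [this]
  ring

/-- One-dimensional inequality for polynomials of degree `< E + 4`. -/
theorem ineq_one (E : ℕ) (c : Fin (E + 4) → ℂ) :
    ∑ j : Fin (E + 4), lam j * ‖c j‖ ^ 2 ≤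
      (∫ t : T1, ‖∑ j : Fin (E + 4), c j * fourier (j : ℤ) t‖ ∂haarT) ^ 2 := by
  set c' : ℕ → ℂ := fun j => if h : j < E + 4 then c ⟨j, h⟩ else 0 with hc'
  have hcc : ∀ j : Fin (E + 4), c' j = c j := by intro j; simp [hc']
  have h := ineq_one_range E c'
  rw [← Fin.sum_univ_eq_sum_range (fun j => lam j * ‖c' j‖ ^ 2)] at h
  have h2 : ∀ t : T1, ∑ j ∈ Finset.range (E + 4), c' j * (fourier (j : ℤ) t : ℂ)
      = ∑ j : Fin (E + 4), c j * fourier (j : ℤ) t := by
    intro t
    rw [← Fin.sum_univ_eq_sum_range (fun j => c' j * (fourier (j : ℤ) t : ℂ))]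
    simp [hcc]
  simp only [hcc, h2] at h
  exact h

/-- The trigonometric polynomial in `n` variables with coefficient array `C`. -/
noncomputable def trigP {n D : ℕ} (C : (Fin n → Fin D) → ℂ) (t : Fin n → T1) : ℂ :=
  ∑ γ : Fin n → Fin D, C γ * ∏ k, fourier ((γ k : ℕ) : ℤ) (t k)

theorem continuous_trigP {n D : ℕ} (C : (Fin n → Fin D) → ℂ) : Continuous (trigP C) := by
  unfold trigP
  refine continuous_finsetSum _ fun γ _ => continuous_const.mul ?_
  exact continuous_finsetProd _ fun k _ => (fourier _).continuous.comp (continuous_apply k)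

/-- The product Haar measure on the `n`-torus. -/
noncomputable abbrev piT (n : ℕ) : Measure (Fin n → T1) := Measure.pi fun _ => haarT

theorem integral_pi_succ {n : ℕ} (F : (Fin (n + 1) → T1) → ℝ) (hF : Continuous F) :
    ∫ t, F t ∂(piT (n + 1)) = ∫ t0 : T1, ∫ t' : Fin n → T1, F (Fin.cons t0 t') ∂(piT n) ∂haarT := by
  have e := measurePreserving_piFinSuccAbove (fun _ : Fin (n + 1) => haarT) 0
  have h1 := (e.symm).integral_comp' F
  have h0 : ∀ x : T1 × (Fin n → T1),
      (MeasurableEquiv.piFinSuccAbove (fun _ : Fin (n + 1) => T1) 0).symm x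
        = (Fin.cons x.1 x.2 : Fin (n + 1) → T1) := by
    intro x
    simp [MeasurableEquiv.piFinSuccAbove, Fin.insertNthEquiv]
  rw [← h1]
  simp only [h0]
  rw [integral_prod]
  have hc : Continuous fun x : T1 × (Fin n → T1) => F (Fin.cons x.1 x.2) := by
    refine hF.comp ?_
    exact Continuous.finCons continuous_fst continuous_snd
  exact hc.integrable_of_hasCompactSupport (HasCompactSupport.of_compactSpace _)

theorem sum_pi_succ {n D : ℕ} {M : Type*} [AddCommMonoid M] (F : (Fin (n + 1) → Fin D) → M) :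
    ∑ γ, F γ = ∑ γ' : Fin n → Fin D, ∑ j : Fin D, F (Fin.cons j γ') := by
  rw [← (Fin.consEquiv (fun _ : Fin (n + 1) => Fin D)).sum_comp, Fintype.sum_prod_type_right]
  rfl

theorem trigP_cons {n D : ℕ} (C : (Fin (n + 1) → Fin D) → ℂ) (t0 : T1) (t' : Fin n → T1) :
    trigP C (Fin.cons t0 t') =
      trigP (fun γ' => ∑ j : Fin D, C (Fin.cons j γ') * fourier ((j : ℕ) : ℤ) t0) t' := by
  unfold trigP
  rw [sum_pi_succ]
  refine Finset.sum_congr rfl fun γ' _ => ?_
  rw [Finset.sum_mul]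
  refine Finset.sum_congr rfl fun j _ => ?_
  rw [Fin.prod_univ_succ]
  simp only [Fin.cons_zero, Fin.cons_succ]
  ring

/-- The tensorised inequality. -/
theorem ineq_n (E n : ℕ) (C : (Fin n → Fin (E + 4)) → ℂ) :
    ∑ γ, (∏ k, lam (γ k)) * ‖C γ‖ ^ 2 ≤ (∫ t, ‖trigP C t‖ ∂(piT n)) ^ 2 := by
  induction n with
  | zero =>
    simp [trigP]
  | succ n ih =>
    set Ct : T1 → (Fin n → Fin (E + 4)) → ℂ := fun t0 γ' =>
      ∑ j : Fin (E + 4), C (Fin.cons j γ') * fourier ((j : ℕ) : ℤ) t0 with hCt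
    set J : T1 → ℝ := fun t0 => ∫ t' : Fin n → T1, ‖trigP (Ct t0) t'‖ ∂(piT n) with hJ
    set w : (Fin n → Fin (E + 4)) → ℝ := fun γ' => ∏ k, lam (γ' k) with hw
    set m : (Fin n → Fin (E + 4)) → ℝ := fun γ' => ∫ t0 : T1, ‖Ct t0 γ'‖ ∂haarT with hm
    have hw0 : ∀ γ', 0 ≤ w γ' := fun γ' => Finset.prod_nonneg fun k _ => lam_nonneg _
    have hm0 : ∀ γ', 0 ≤ m γ' := fun γ' => integral_nonneg fun _ => norm_nonneg _
    have hJ0 : ∀ t0, 0 ≤ J t0 := fun t0 => integral_nonneg fun _ => norm_nonneg _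
    have hCtc : ∀ γ', Continuous fun t0 => Ct t0 γ' := by
      intro γ'
      exact continuous_finsetSum _ fun j _ => continuous_const.mul (fourier _).continuous
    have hI : ∫ t, ‖trigP C t‖ ∂(piT (n + 1)) = ∫ t0, J t0 ∂haarT := by
      rw [integral_pi_succ _ (continuous_trigP C).norm]
      simp only [trigP_cons, hJ, hCt]
    have hJc : Continuous J := by
      have h1 : Continuous (Function.uncurry fun (t0 : T1) (t' : Fin n → T1) =>
          ‖trigP (Ct t0) t'‖) := by
        have : (Function.uncurry fun (t0 : T1) (t' : Fin n → T1) => ‖trigP (Ct t0) t'‖)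
            = fun x : T1 × (Fin n → T1) => ‖trigP C (Fin.cons x.1 x.2)‖ := by
          funext x
          simp only [trigP_cons, hCt, Function.uncurry]
        rw [this]
        exact ((continuous_trigP C).comp (Continuous.finCons continuous_fst continuous_snd)).norm
      have h2 := continuous_parametric_integral_of_continuous (μ := piT n) h1
        (isCompact_univ (X := Fin n → T1))
      simpa only [Measure.restrict_univ] using h2
    have hone : ∀ γ', ∑ j : Fin (E + 4), lam j * ‖C (Fin.cons j γ')‖ ^ 2 ≤ m γ' ^ 2 :=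
      fun γ' => ineq_one E fun j => C (Fin.cons j γ')
    set R : ℝ := Real.sqrt (∑ γ', w γ' * m γ' ^ 2) with hR
    have hRs : R ^ 2 = ∑ γ', w γ' * m γ' ^ 2 :=
      Real.sq_sqrt (Finset.sum_nonneg fun γ' _ => mul_nonneg (hw0 γ') (sq_nonneg _))
    have hRn : 0 ≤ R := Real.sqrt_nonneg _
    have hpt : ∀ t0, ∑ γ', w γ' * m γ' * ‖Ct t0 γ'‖ ≤ R * J t0 := by
      intro t0
      have h1 := ih (Ct t0)
      have h2 : (∑ γ', w γ' * m γ' * ‖Ct t0 γ'‖) ^ 2 ≤ (R * J t0) ^ 2 := by
        have h3 := Finset.sum_mul_sq_le_sq_mul_sq Finset.univ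
          (fun γ' => Real.sqrt (w γ') * m γ') (fun γ' => Real.sqrt (w γ') * ‖Ct t0 γ'‖)
        have h4 : ∀ γ', Real.sqrt (w γ') * m γ' * (Real.sqrt (w γ') * ‖Ct t0 γ'‖)
            = w γ' * m γ' * ‖Ct t0 γ'‖ := by
          intro γ'
          have := Real.mul_self_sqrt (hw0 γ')
          calc _ = (Real.sqrt (w γ') * Real.sqrt (w γ')) * m γ' * ‖Ct t0 γ'‖ := by ring
            _ = _ := by rw [this]
        simp only [h4, mul_pow, Real.sq_sqrt (hw0 _)] at h3
        refine h3.trans ?_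
        rw [mul_pow, hRs]
        exact mul_le_mul_of_nonneg_left h1
          (Finset.sum_nonneg fun γ' _ => mul_nonneg (hw0 γ') (sq_nonneg _))
      exact le_of_sq_le_sq h2 (mul_nonneg hRn (hJ0 t0))
    have hint : ∀ g : T1 → ℝ, Continuous g → Integrable g haarT := fun g hg =>
      hg.integrable_of_hasCompactSupport (HasCompactSupport.of_compactSpace g)
    have hRI : R ^ 2 ≤ R * ∫ t0, J t0 ∂haarT := by
      rw [← integral_const_mul, hRs]
      have h1 : ∑ γ', w γ' * m γ' ^ 2 = ∫ t0, ∑ γ', w γ' * m γ' * ‖Ct t0 γ'‖ ∂haarT := by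
        rw [integral_finsetSum]
        · refine Finset.sum_congr rfl fun γ' _ => ?_
          rw [integral_const_mul, pow_two, mul_assoc]
        · intro γ' _
          exact hint _ (continuous_const.mul (hCtc γ').norm)
      rw [h1]
      refine integral_mono ?_ ?_ hpt
      · exact hint _ (continuous_finsetSum _ fun γ' _ => continuous_const.mul (hCtc γ').norm)
      · exact hint _ (continuous_const.mul hJc)
    have hRJ : R ≤ ∫ t0, J t0 ∂haarT := by
      rcases eq_or_lt_of_le hRn with h0 | hpos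
      · rw [← h0]; exact integral_nonneg hJ0
      · rw [pow_two] at hRI
        exact le_of_mul_le_mul_left hRI hpos
    rw [hI, sum_pi_succ]
    calc ∑ γ' : Fin n → Fin (E + 4), ∑ j : Fin (E + 4),
          (∏ k, lam ((Fin.cons j γ' : Fin (n + 1) → Fin (E + 4)) k)) * ‖C (Fin.cons j γ')‖ ^ 2
        = ∑ γ' : Fin n → Fin (E + 4), w γ' * ∑ j : Fin (E + 4), lam j * ‖C (Fin.cons j γ')‖ ^ 2 := by
          refine Finset.sum_congr rfl fun γ' _ => ?_
          rw [Finset.mul_sum]
          refine Finset.sum_congr rfl fun j _ => ?_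
          rw [Fin.prod_univ_succ]
          simp only [Fin.cons_zero, Fin.cons_succ, hw]
          ring
      _ ≤ ∑ γ' : Fin n → Fin (E + 4), w γ' * m γ' ^ 2 :=
          Finset.sum_le_sum fun γ' _ => mul_le_mul_of_nonneg_left (hone γ') (hw0 γ')
      _ = R ^ 2 := hRs.symm
      _ ≤ _ := pow_le_pow_left₀ hRn hRJ 2

end Pool.Agent.Helper35
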