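import Mathlib

/-!
Unconditional expansions in a Banach space: uniform bounds.
-/

set_option autoImplicit false

open Filter Topology
open scoped ENNReal

namespace Pool.Agent.Helper35

section LemmaA

variable {X : Type*} [NormedAddCommGroup X] [NormedSpace ℂ X] [CompleteSpace X]

/-- The family of finite partial sums of an unconditionally convergent series is bounded. -/
theorem bounded_partial_sums {v : ℕ → X} {x : X} (h : HasSum v x) :
    ∃ C : ℝ, ∀ F : Finset ℕ, ‖∑ n ∈ F, v n‖ ≤ C := by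
  classical
  obtain ⟨F0, hF0⟩ := summable_iff_vanishing_norm.mp h.summable 1 one_pos
  refine ⟨(∑ n ∈ F0, ‖v n‖) + 1, fun F => ?_⟩
  have hdec : ∑ n ∈ F, v n = ∑ n ∈ F ∩ F0, v n + ∑ n ∈ F \ F0, v n := by
    rw [← Finset.sum_union (Finset.disjoint_sdiff_inter F F0).symm,
      Finset.union_comm, Finset.sdiff_union_inter]
  rw [hdec]
  refine (norm_add_le _ _).trans (add_le_add ?_ (hF0 _ Finset.sdiff_disjoint).le)
  refine (norm_sum_le _ _).trans ?_
  exact Finset.sum_le_sum_of_subset_of_nonneg Finset.inter_subset_right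
    (fun _ _ _ => norm_nonneg _)

/-- Sum of absolute values of reals is controlled by sub-sums. -/
theorem sum_abs_le_of_subsums (r : ℕ → ℝ) (S : Finset ℕ) (R : ℝ)
    (h : ∀ F : Finset ℕ, |∑ i ∈ F, r i| ≤ R) : ∑ i ∈ S, |r i| ≤ 2 * R := by
  classical
  have h1 : ∑ i ∈ S, |r i| = ∑ i ∈ S with 0 ≤ r i, r i - ∑ i ∈ S with ¬ 0 ≤ r i, r i := by
    rw [← Finset.sum_filter_add_sum_filter_not S (fun i => 0 ≤ r i)]
    rw [sub_eq_add_neg, ← Finset.sum_neg_distrib]
    congr 1
    · refine Finset.sum_congr rfl fun i hi => ?_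
      exact abs_of_nonneg (Finset.mem_filter.mp hi).2
    · refine Finset.sum_congr rfl fun i hi => ?_
      exact abs_of_neg (not_le.mp (Finset.mem_filter.mp hi).2)
  rw [h1]
  have a1 := h (S.filter fun i => 0 ≤ r i)
  have a2 := h (S.filter fun i => ¬ 0 ≤ r i)
  rw [abs_le] at a1 a2
  linarith [a1.1, a1.2, a2.1, a2.2]

/-- Sum of norms of complex numbers is controlled by sub-sums. -/
theorem sum_norm_le_of_subsums (z : ℕ → ℂ) (S : Finset ℕ) (R : ℝ)
    (h : ∀ F : Finset ℕ, ‖∑ i ∈ F, z i‖ ≤ R) : ∑ i ∈ S, ‖z i‖ ≤ 4 * R := by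
  have hre : ∑ i ∈ S, |(z i).re| ≤ 2 * R := by
    apply sum_abs_le_of_subsums
    intro F
    have : ∑ i ∈ F, (z i).re = (∑ i ∈ F, z i).re := by simp
    rw [this]
    exact (Complex.abs_re_le_norm _).trans (h F)
  have him : ∑ i ∈ S, |(z i).im| ≤ 2 * R := by
    apply sum_abs_le_of_subsums
    intro F
    have : ∑ i ∈ F, (z i).im = (∑ i ∈ F, z i).im := by simp
    rw [this]
    exact (Complex.abs_im_le_norm _).trans (h F)
  have : ∑ i ∈ S, ‖z i‖ ≤ ∑ i ∈ S, (|(z i).re| + |(z i).im|) :=
    Finset.sum_le_sum fun i _ => Complex.norm_le_abs_re_add_abs_im _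
  rw [Finset.sum_add_distrib] at this
  linarith

/-- Main functional-analytic input: if every vector has a unique unconditionally convergent
expansion along `e`, then the coefficients satisfy a uniform absolute-summability bound. -/
theorem uncond_bound (e : ℕ → X) (h : ∀ x : X, ∃! c : ℕ → ℂ, HasSum (fun n => c n • e n) x) :
    ∃ (c : X → ℕ → ℂ) (K : ℝ), 0 ≤ K ∧ (∀ x, HasSum (fun n => c x n • e n) x) ∧
      (∀ x y, c (x + y) = c x + c y) ∧ (∀ (a : ℂ) x, c (a • x) = a • c x) ∧
      ∀ (φ : X →L[ℂ] ℂ) (x : X) (S : Finset ℕ),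
        ∑ i ∈ S, ‖φ (e i)‖ * ‖c x i‖ ≤ K * ‖φ‖ * ‖x‖ := by
  classical
  choose c hc using fun x => (h x).exists
  have huniq : ∀ (x : X) (d : ℕ → ℂ), HasSum (fun n => d n • e n) x → d = c x :=
    fun x d hd => (h x).unique hd (hc x)
  have hadd : ∀ x y, c (x + y) = c x + c y := by
    intro x y
    refine (huniq (x + y) (c x + c y) ?_).symm
    have := (hc x).add (hc y)
    simpa [add_smul] using this
  have hsmul : ∀ (a : ℂ) x, c (a • x) = a • c x := by
    intro a x
    refine (huniq (a • x) (a • c x) ?_).symm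
    have := (hc x).const_smul a
    simpa [smul_smul] using this
  have hne : ∀ n, e n ≠ 0 := by
    intro n hn
    have h0 : HasSum (fun k => (0 : ℕ → ℂ) k • e k) (0 : X) := by simpa using hasSum_zero
    have h1 : HasSum (fun k => (Pi.single n (1 : ℂ) : ℕ → ℂ) k • e k) (0 : X) := by
      have : (fun k => (Pi.single n (1 : ℂ) : ℕ → ℂ) k • e k) = fun _ => 0 := by
        funext k
        by_cases hk : k = n
        · subst hk; simp [hn]
        · simp [Pi.single_apply, hk]
      rw [this]; exact hasSum_zero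
    have := (h 0).unique h0 h1
    have h2 := congrFun this n
    simp at h2
  -- the map sending `x` to its family of partial sums
  have hbdd : ∀ x, BddAbove (Set.range fun F : Finset ℕ => ‖∑ n ∈ F, c x n • e n‖) := by
    intro x
    obtain ⟨C, hC⟩ := bounded_partial_sums (hc x)
    exact ⟨C, by rintro _ ⟨F, rfl⟩; exact hC F⟩
  let Φ : X →ₗ[ℂ] lp (fun _ : Finset ℕ => X) ∞ :=
    { toFun := fun x => ⟨fun F => ∑ n ∈ F, c x n • e n, memℓp_infty (hbdd x)⟩
      map_add' := by
        intro x y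
        ext F
        simp [hadd, add_smul, Finset.sum_add_distrib]
      map_smul' := by
        intro a x
        ext F
        simp [hsmul, Finset.smul_sum, smul_smul] }
  have hΦ : ∀ x F, (Φ x : Finset ℕ → X) F = ∑ n ∈ F, c x n • e n := fun x F => rfl
  have hcont : Continuous Φ := by
    apply LinearMap.continuous_of_seq_closed_graph
    intro u x y hu hy
    -- pointwise convergence
    have hpt : ∀ F : Finset ℕ, Tendsto (fun k => (Φ (u k) : Finset ℕ → X) F) atTop
        (𝓝 ((y : Finset ℕ → X) F)) := by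
      intro F
      rw [tendsto_iff_norm_sub_tendsto_zero] at hy ⊢
      refine squeeze_zero (fun _ => norm_nonneg _) (fun k => ?_) hy
      have := lp.norm_apply_le_norm ENNReal.top_ne_zero (Φ (u k) - y) F
      simpa using this
    -- coefficients converge
    have hmem : ∀ n, ∃ d : ℂ, (y : Finset ℕ → X) {n} = d • e n := by
      intro n
      have hclosed : IsClosed ((Submodule.span ℂ {e n} : Submodule ℂ X) : Set X) :=
        Submodule.closed_of_finiteDimensional _
      have : (y : Finset ℕ → X) {n} ∈ ((Submodule.span ℂ {e n} : Submodule ℂ X) : Set X) := by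
        refine hclosed.mem_of_tendsto (hpt {n}) (Eventually.of_forall fun k => ?_)
        rw [hΦ]
        simp only [Finset.sum_singleton]
        exact Submodule.smul_mem _ _ (Submodule.mem_span_singleton_self _)
      obtain ⟨d, hd⟩ := Submodule.mem_span_singleton.mp this
      exact ⟨d, hd.symm⟩
    choose d hd using hmem
    have hsum : ∀ F : Finset ℕ, (y : Finset ℕ → X) F = ∑ n ∈ F, d n • e n := by
      intro F
      have h1 : Tendsto (fun k => ∑ n ∈ F, (Φ (u k) : Finset ℕ → X) {n}) atTop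
          (𝓝 (∑ n ∈ F, (y : Finset ℕ → X) {n})) :=
        tendsto_finset_sum _ fun n _ => hpt {n}
      have h2 : (fun k => ∑ n ∈ F, (Φ (u k) : Finset ℕ → X) {n}) =
          fun k => (Φ (u k) : Finset ℕ → X) F := by
        funext k
        simp [hΦ]
      rw [h2] at h1
      rw [tendsto_nhds_unique (hpt F) h1]
      exact Finset.sum_congr rfl fun n _ => hd n
    have hHS : HasSum (fun n => d n • e n) x := by
      rw [HasSum, SummationFilter.unconditional_filter, Metric.tendsto_atTop]
      intro ε hε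
      have hy' := (tendsto_iff_norm_sub_tendsto_zero.mp hy)
      have hu' := (tendsto_iff_norm_sub_tendsto_zero.mp hu)
      have e1 : ∀ᶠ k in atTop, ‖Φ (u k) - y‖ < ε / 3 := by
        have := (Metric.tendsto_nhds.mp hy') (ε / 3) (by positivity)
        refine this.mono fun k hk => ?_
        simpa [Real.dist_eq] using hk
      have e2 : ∀ᶠ k in atTop, ‖u k - x‖ < ε / 3 := by
        have := (Metric.tendsto_nhds.mp hu') (ε / 3) (by positivity)
        refine this.mono fun k hk => ?_
        simpa [Real.dist_eq] using hk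
      obtain ⟨k, hk1, hk2⟩ := (e1.and e2).exists
      have hck := hc (u k)
      rw [HasSum, SummationFilter.unconditional_filter, Metric.tendsto_atTop] at hck
      obtain ⟨F0, hF0⟩ := hck (ε / 3) (by positivity)
      refine ⟨F0, fun F hF => ?_⟩
      have a1 := hF0 F hF
      rw [dist_eq_norm] at a1 ⊢
      have a2 : ‖(Φ (u k) : Finset ℕ → X) F - (y : Finset ℕ → X) F‖ ≤ ‖Φ (u k) - y‖ := by
        have := lp.norm_apply_le_norm ENNReal.top_ne_zero (Φ (u k) - y) F
        simpa using this
      rw [hΦ, hsum] at a2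
      calc ‖∑ b ∈ F, d b • e b - x‖
          = ‖-(∑ n ∈ F, c (u k) n • e n - ∑ n ∈ F, d n • e n)
              + (∑ n ∈ F, c (u k) n • e n - u k) + (u k - x)‖ := by congr 1; abel
        _ ≤ ‖-(∑ n ∈ F, c (u k) n • e n - ∑ n ∈ F, d n • e n)‖
              + ‖(∑ n ∈ F, c (u k) n • e n - u k)‖ + ‖(u k - x)‖ := norm_add₃_le
        _ < ε / 3 + ε / 3 + ε / 3 := by
            rw [norm_neg]
            exact add_lt_add (add_lt_add (a2.trans_lt hk1) a1) hk2
        _ = ε := by ring
    have hdc := huniq x d hHS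
    ext F
    rw [hΦ, hsum, hdc]
  let Ψ : X →L[ℂ] lp (fun _ : Finset ℕ => X) ∞ := ⟨Φ, hcont⟩
  refine ⟨c, 4 * ‖Ψ‖, by positivity, hc, hadd, hsmul, ?_⟩
  intro φ x S
  have h1 : ∀ F : Finset ℕ, ‖∑ i ∈ F, φ (c x i • e i)‖ ≤ ‖φ‖ * (‖Ψ‖ * ‖x‖) := by
    intro F
    rw [← map_sum]
    refine (φ.le_opNorm _).trans (mul_le_mul_of_nonneg_left ?_ (norm_nonneg _))
    have a1 := lp.norm_apply_le_norm ENNReal.top_ne_zero (Φ x) F
    rw [hΦ] at a1
    exact a1.trans (Ψ.le_opNorm x)
  have h2 := sum_norm_le_of_subsums (fun i => φ (c x i • e i)) S _ h1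
  have h3 : ∑ i ∈ S, ‖φ (e i)‖ * ‖c x i‖ = ∑ i ∈ S, ‖φ (c x i • e i)‖ := by
    refine Finset.sum_congr rfl fun i _ => ?_
    rw [map_smul, smul_eq_mul, norm_mul, mul_comm]
  rw [h3]
  linarith

end LemmaA

end Pool.Agent.Helper35
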