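import Mathlib
import Pool.Agent.helper35.UncondBasis
import Pool.Agent.helper35.TensorIneq

/-!
Hardy spaces of the infinite torus: basic facts.
-/

set_option autoImplicit false

open Filter Topology MeasureTheory Metric Complex
open scoped ENNReal ComplexConjugate

namespace Pool.Agent.Helper35

/-- The infinite torus. -/
abbrev Om : Type := ℕ → T1

/-- The normalised Haar measure of the infinite torus. -/
noncomputable abbrev muT : Measure Om := Measure.infinitePi (fun _ : ℕ => haarT)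

/-- restriction to the first `n` coordinates. -/
def res (n : ℕ) : Om → (Fin n → T1) := fun ω k => ω k

theorem continuous_res (n : ℕ) : Continuous (res n) :=
  continuous_pi fun k => continuous_apply (k : ℕ)

theorem measurePreserving_res (n : ℕ) : MeasurePreserving (res n) muT (piT n) := by
  refine ⟨(continuous_res n).measurable, ?_⟩
  have h := Measure.map_infinitePi_infinitePi_of_inj (P := fun _ : ℕ => haarT)
    (f := fun k : Fin n => (k : ℕ)) Fin.val_injective
  have h2 : Measure.infinitePi (fun _ : Fin n => haarT) = Measure.pi (fun _ : Fin n => haarT) :=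
    Measure.infinitePi_eq_pi _
  exact h.trans h2

theorem integral_fourier_T1 (k : ℤ) : ∫ t : T1, (fourier k t : ℂ) ∂haarT = if k = 0 then 1 else 0 := by
  have h := fourierCoeff_fourier (T := (1 : ℝ)) k
  have h2 := congrFun h 0
  simp only [fourierCoeff, neg_zero, fourier_zero, one_smul] at h2
  rw [h2]
  by_cases hk : k = 0
  · simp [hk]
  · simp [hk, Ne.symm hk]

theorem integral_prod_fourier (n : ℕ) (k : Fin n → ℤ) :
    ∫ ω : Om, ∏ i, (fourier (k i) (ω i) : ℂ) ∂muT = if k = 0 then 1 else 0 := by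
  have h1 : ∫ ω : Om, ∏ i, (fourier (k i) (ω i) : ℂ) ∂muT
      = ∫ t : Fin n → T1, ∏ i, (fourier (k i) (t i) : ℂ) ∂(piT n) := by
    rw [← (measurePreserving_res n).map_eq]
    rw [integral_map (continuous_res n).measurable.aemeasurable]
    · rfl
    · exact (continuous_finsetProd _ fun i _ =>
        (fourier (k i)).continuous.comp (continuous_apply i)).aestronglyMeasurable
  rw [h1, integral_fintype_prod_eq_prod (fun i (t : T1) => (fourier (k i) t : ℂ))]
  simp only [integral_fourier_T1]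
  by_cases hk : k = 0
  · simp [hk]
  · rw [if_neg hk]
    obtain ⟨i, hi⟩ := Function.ne_iff.mp hk
    exact Finset.prod_eq_zero (Finset.mem_univ i) (by simpa using hi)

theorem norm_integral_mul_le {p : ℝ≥0∞} (hp1 : 1 ≤ p) (hptop : p ≠ ∞) (f : Lp ℂ p muT)
    (W : Om → ℂ) (V : Om → ℝ) (hVc : Continuous V) (hV0 : ∀ ω, 0 ≤ V ω)
    (hV1 : ∫ ω, V ω ∂muT = 1) (M : ℝ) (hVM : ∀ ω, V ω ≤ M) (hWV : ∀ ω, ‖W ω‖ ≤ V ω) :
    ‖∫ ω, (f : Om → ℂ) ω * W ω ∂muT‖ ≤ M ^ (1 / p).toReal * ‖f‖ := by
  have hVint : Integrable V muT :=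
    hVc.integrable_of_hasCompactSupport (HasCompactSupport.of_compactSpace V)
  set ν : Measure Om := muT.withDensity (fun ω => ENNReal.ofReal (V ω)) with hν
  have hVm : Measurable fun ω => ENNReal.ofReal (V ω) := hVc.measurable.ennreal_ofReal
  have hν1 : IsProbabilityMeasure ν := by
    refine ⟨?_⟩
    rw [hν, withDensity_apply _ MeasurableSet.univ, Measure.restrict_univ,
      ← ofReal_integral_eq_lintegral_ofReal hVint (Eventually.of_forall hV0), hV1,
      ENNReal.ofReal_one]
  have hνle : ν ≤ ENNReal.ofReal M • muT := by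
    rw [← withDensity_const]
    exact withDensity_mono (Eventually.of_forall fun ω => ENNReal.ofReal_le_ofReal (hVM ω))
  have hM0 : 0 ≤ M := (hV0 (fun _ => 0)).trans (hVM _)
  have hfm : AEStronglyMeasurable (f : Om → ℂ) muT := (Lp.memLp f).1
  have hfm' : AEStronglyMeasurable (f : Om → ℂ) ν :=
    hfm.mono_ac (withDensity_absolutelyContinuous _ _)
  have key : ‖∫ ω, (f : Om → ℂ) ω * W ω ∂muT‖ₑ ≤
      ENNReal.ofReal M ^ (1 / p).toReal * eLpNorm (f : Om → ℂ) p muT := by
    calc ‖∫ ω, (f : Om → ℂ) ω * W ω ∂muT‖ₑ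
        ≤ ∫⁻ ω, ‖(f : Om → ℂ) ω * W ω‖ₑ ∂muT := enorm_integral_le_lintegral_enorm _
      _ ≤ ∫⁻ ω, ENNReal.ofReal (V ω) * ‖(f : Om → ℂ) ω‖ₑ ∂muT := by
          refine lintegral_mono fun ω => ?_
          rw [enorm_mul, mul_comm]
          refine mul_le_mul_left ?_ _
          rw [← ofReal_norm]
          exact ENNReal.ofReal_le_ofReal (hWV ω)
      _ = ∫⁻ ω, ‖(f : Om → ℂ) ω‖ₑ ∂ν := by
          rw [hν, lintegral_withDensity_eq_lintegral_mul₀ hVm.aemeasurable hfm.enorm]
          rfl
      _ = eLpNorm (f : Om → ℂ) 1 ν := by rw [eLpNorm_one_eq_lintegral_enorm]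
      _ ≤ eLpNorm (f : Om → ℂ) p ν := eLpNorm_le_eLpNorm_of_exponent_le hp1 hfm'
      _ ≤ eLpNorm (f : Om → ℂ) p (ENNReal.ofReal M • muT) := eLpNorm_mono_measure _ hνle
      _ = ENNReal.ofReal M ^ (1 / p).toReal * eLpNorm (f : Om → ℂ) p muT := by
          rw [eLpNorm_smul_measure_of_ne_top hptop, smul_eq_mul]
  have h2 := ENNReal.toReal_mono (by
    refine ENNReal.mul_ne_top ?_ (Lp.memLp f).2.ne
    exact ENNReal.rpow_ne_top_of_nonneg ENNReal.toReal_nonneg ENNReal.ofReal_ne_top) key
  rw [ENNReal.toReal_mul, toReal_enorm, ← Lp.norm_def, ← ENNReal.toReal_rpow,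
    ENNReal.toReal_ofReal hM0] at h2
  exact h2

section Hardy

variable {p : ℝ≥0∞} [Fact (1 ≤ p)]

theorem integrable_mul_cont (f : Lp ℂ p muT) (W : C(Om, ℂ)) :
    Integrable (fun ω => (f : Om → ℂ) ω * W ω) muT := by
  have hf : Integrable (f : Om → ℂ) muT := (Lp.memLp f).integrable Fact.out
  refine hf.mul_bdd (c := ‖W‖) W.continuous.aestronglyMeasurable ?_
  exact Eventually.of_forall fun ω => W.norm_coe_le_norm ω

/-- Integration against a continuous function, as a continuous linear functional on `Lp`. -/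
noncomputable def pair (hptop : p ≠ ∞) (W : C(Om, ℂ)) : Lp ℂ p muT →L[ℂ] ℂ :=
  LinearMap.mkContinuous
    { toFun := fun f => ∫ ω, (f : Om → ℂ) ω * W ω ∂muT
      map_add' := by
        intro f g
        rw [← integral_add (integrable_mul_cont f W) (integrable_mul_cont g W)]
        refine integral_congr_ae ?_
        filter_upwards [Lp.coeFn_add f g] with ω hω
        rw [hω, Pi.add_apply]; ring
      map_smul' := by
        intro a f
        rw [RingHom.id_apply, smul_eq_mul, ← integral_const_mul]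
        refine integral_congr_ae ?_
        filter_upwards [Lp.coeFn_smul a f] with ω hω
        rw [hω, Pi.smul_apply, smul_eq_mul]; ring }
    (‖W‖ + 1)
    (by
      intro f
      have hpos : (0 : ℝ) < ‖W‖ + 1 := by positivity
      have h1 : ∫ ω, (f : Om → ℂ) ω * W ω ∂muT
          = ((‖W‖ + 1 : ℝ) : ℂ) * ∫ ω, (f : Om → ℂ) ω * ((((‖W‖ + 1 : ℝ) : ℂ))⁻¹ * W ω) ∂muT := by
        rw [← integral_const_mul]
        refine integral_congr_ae (Eventually.of_forall fun ω => ?_)
        have : ((‖W‖ + 1 : ℝ) : ℂ) ≠ 0 := by exact_mod_cast hpos.ne'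
        field_simp
      have h2 := norm_integral_mul_le (Fact.out : 1 ≤ p) hptop f
        (fun ω => (((‖W‖ + 1 : ℝ) : ℂ))⁻¹ * W ω) (fun _ => 1) continuous_const
        (fun _ => zero_le_one) (by simp) 1 (fun _ => le_rfl) (by
          intro ω
          rw [norm_mul, norm_inv, Complex.norm_real, Real.norm_of_nonneg hpos.le, inv_mul_le_one₀ hpos]
          exact (W.norm_coe_le_norm ω).trans (by linarith))
      rw [Real.one_rpow, one_mul] at h2
      change ‖∫ ω, (f : Om → ℂ) ω * W ω ∂muT‖ ≤ _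
      rw [h1, norm_mul, Complex.norm_real, Real.norm_of_nonneg hpos.le]
      exact mul_le_mul_of_nonneg_left h2 hpos.le)

theorem pair_apply (hptop : p ≠ ∞) (W : C(Om, ℂ)) (f : Lp ℂ p muT) :
    pair hptop W f = ∫ ω, (f : Om → ℂ) ω * W ω ∂muT := rfl

theorem pair_toLp (hptop : p ≠ ∞) (W F : C(Om, ℂ)) :
    pair hptop W (ContinuousMap.toLp p muT ℂ F) = ∫ ω, F ω * W ω ∂muT := by
  rw [pair_apply]
  refine integral_congr_ae ?_
  filter_upwards [ContinuousMap.coeFn_toLp (𝕜 := ℂ) (p := p) muT F] with ω hω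
  rw [hω]

/-- The character attached to a finitely supported exponent, negated. -/
noncomputable def Wal (α : ℕ →₀ ℤ) : C(Om, ℂ) where
  toFun ω := ∏ i ∈ α.support, fourier (-(α i)) (ω i)
  continuous_toFun := continuous_finsetProd _ fun i _ =>
    (fourier _).continuous.comp (continuous_apply i)

/-- Monomials in the first `n` variables. -/
noncomputable def mono {n : ℕ} (κ : Fin n → ℤ) : C(Om, ℂ) where
  toFun ω := ∏ k, fourier (κ k) (ω k)
  continuous_toFun := continuous_finsetProd _ fun i _ =>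
    (fourier _).continuous.comp (continuous_apply _)

/-- The Hardy space `H^p` of the infinite torus, as a submodule of `L^p`. -/
noncomputable def hardy (p : ℝ≥0∞) [Fact (1 ≤ p)] (hptop : p ≠ ∞) : Submodule ℂ (Lp ℂ p muT) :=
  ⨅ α : {α : ℕ →₀ ℤ // ∃ i, α i < 0}, LinearMap.ker (pair hptop (Wal α.1)).toLinearMap

theorem mem_hardy (hptop : p ≠ ∞) (f : Lp ℂ p muT) : f ∈ hardy p hptop ↔
    ∀ α : ℕ →₀ ℤ, (∃ i, α i < 0) →
      ∫ ω, (f : Om → ℂ) ω * ∏ i ∈ α.support, fourier (-(α i)) (ω i) ∂muT = 0 := by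
  unfold hardy
  simp only [Submodule.mem_iInf, Subtype.forall]
  rfl

theorem isClosed_hardy (hptop : p ≠ ∞) : IsClosed (hardy p hptop : Set (Lp ℂ p muT)) := by
  unfold hardy
  rw [Submodule.coe_iInf]
  exact isClosed_iInter fun α => (pair hptop (Wal α.1)).isClosed_ker

/-- extension by zero of an exponent. -/
def extz {n : ℕ} (κ : Fin n → ℤ) : ℕ → ℤ := fun i => if h : i < n then κ ⟨i, h⟩ else 0

theorem extz_coe {n : ℕ} (κ : Fin n → ℤ) (k : Fin n) : extz κ k = κ k := by simp [extz]

theorem mono_eq_range {n N : ℕ} (hnN : n ≤ N) (κ : Fin n → ℤ) (ω : Om) :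
    mono κ ω = ∏ i ∈ Finset.range N, (fourier (extz κ i) (ω i) : ℂ) := by
  have h1 : mono κ ω = ∏ k : Fin n, (fourier (extz κ k) (ω k) : ℂ) := by
    simp only [extz_coe]; rfl
  rw [h1, Fin.prod_univ_eq_prod_range (fun i => (fourier (extz κ i) (ω i) : ℂ)) n]
  refine Finset.prod_subset (Finset.range_mono hnN) ?_
  intro i _ hi
  have : ¬ i < n := by simpa using hi
  simp [extz, this]

theorem Wal_eq_range {N : ℕ} (α : ℕ →₀ ℤ) (hα : α.support ⊆ Finset.range N) (ω : Om) :
    Wal α ω = ∏ i ∈ Finset.range N, (fourier (-(α i)) (ω i) : ℂ) := by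
  refine Finset.prod_subset hα ?_
  intro i _ hi
  have : α i = 0 := by simpa using hi
  simp [this]

theorem mono_mem {n : ℕ} (hptop : p ≠ ∞) (κ : Fin n → ℤ) (hκ : ∀ k, 0 ≤ κ k) :
    ContinuousMap.toLp p muT ℂ (mono κ) ∈ hardy p hptop := by
  rw [mem_hardy]
  intro α ⟨i0, hi0⟩
  have h0 := pair_toLp (p := p) hptop (Wal α) (mono κ)
  rw [pair_apply] at h0
  change ∫ ω, ((ContinuousMap.toLp p muT ℂ (mono κ) : Lp ℂ p muT) : Om → ℂ) ω * Wal α ω ∂muT = 0
  rw [h0]
  -- a common range
  obtain ⟨N, hnN, hαN⟩ : ∃ N, n ≤ N ∧ α.support ⊆ Finset.range N := by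
    refine ⟨max n (α.support.sup id + 1), le_max_left _ _, fun i hi => ?_⟩
    rw [Finset.mem_range]
    have : i ≤ α.support.sup id := Finset.le_sup (f := id) hi
    exact lt_of_lt_of_le (Nat.lt_succ_of_le this) (le_max_right _ _)
  have h1 : ∀ ω : Om, mono κ ω * Wal α ω
      = ∏ i : Fin N, (fourier (extz κ i + -(α i)) (ω i) : ℂ) := by
    intro ω
    rw [mono_eq_range hnN, Wal_eq_range α hαN, ← Finset.prod_mul_distrib,
      Fin.prod_univ_eq_prod_range (fun i => (fourier (extz κ i + -(α i)) (ω i) : ℂ)) N]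
    refine Finset.prod_congr rfl fun i _ => ?_
    rw [fourier_add]
  simp only [h1]
  rw [integral_prod_fourier N (fun i => extz κ i + -(α i)), if_neg]
  intro hzero
  have hi0N : i0 < N := by
    have : i0 ∈ α.support := by simp [hi0.ne]
    exact Finset.mem_range.mp (hαN this)
  have h2 := congrFun hzero ⟨i0, hi0N⟩
  simp only [Pi.zero_apply] at h2
  have h3 : 0 ≤ extz κ i0 := by
    unfold extz; split_ifs
    · exact hκ _
    · exact le_rfl
  omega

/-- Fourier coefficients with a negative index vanish on the Hardy space. -/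
theorem hardy_coeff_eq_zero {n : ℕ} (hptop : p ≠ ∞) (κ : Fin n → ℤ) (k0 : Fin n) (hk : κ k0 < 0)
    (f : Lp ℂ p muT) (hf : f ∈ hardy p hptop) : pair hptop (mono (-κ)) f = 0 := by
  rw [mem_hardy] at hf
  set α : ℕ →₀ ℤ := Finsupp.onFinset (Finset.range n) (extz κ) (by
    intro i hi
    by_contra h
    apply hi
    have : ¬ i < n := by simpa using h
    simp [extz, this]) with hα
  have hαi : ∀ i, α i = extz κ i := fun i => rfl
  have hsupp : α.support ⊆ Finset.range n := Finsupp.support_onFinset_subset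
  have h := hf α ⟨k0, by rw [hαi, extz_coe]; exact hk⟩
  rw [pair_apply, ← h]
  refine integral_congr_ae (Eventually.of_forall fun ω => ?_)
  have h2 : mono (-κ) ω = Wal α ω := by
    rw [mono_eq_range le_rfl, Wal_eq_range α hsupp]
    refine Finset.prod_congr rfl fun i hi => ?_
    rw [hαi]
    have : extz (-κ) i = - extz κ i := by
      unfold extz; split_ifs <;> simp
    rw [this]
  simp only [h2]
  rfl

/-- Orthonormality of monomials. -/
theorem pair_mono_mono {n : ℕ} (hptop : p ≠ ∞) (κ κ' : Fin n → ℤ) :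
    pair (p := p) hptop (mono (-κ)) (ContinuousMap.toLp p muT ℂ (mono κ'))
      = if κ = κ' then 1 else 0 := by
  rw [pair_toLp]
  have h1 : ∀ ω : Om, mono κ' ω * mono (-κ) ω = ∏ i, (fourier (κ' i - κ i) (ω i) : ℂ) := by
    intro ω
    change (∏ k : Fin n, (fourier (κ' k) (ω k) : ℂ)) * (∏ k : Fin n, (fourier ((-κ) k) (ω k) : ℂ)) = _
    rw [← Finset.prod_mul_distrib]
    refine Finset.prod_congr rfl fun i _ => ?_
    rw [sub_eq_add_neg, fourier_add]
    rfl
  simp only [h1]
  rw [integral_prod_fourier n (fun i => κ' i - κ i)]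
  congr 1
  rw [funext_iff, funext_iff]
  simp only [Pi.zero_apply, sub_eq_zero, eq_iff_iff]
  exact forall_congr' fun i => eq_comm

end Hardy

end Pool.Agent.Helper35
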