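import Mathlib
import Pool.Agent.helper35.HardyTorus

/-!
Explicit test functions: a polynomial of sup norm at most one and a positive kernel.
-/

set_option autoImplicit false

open Filter Topology MeasureTheory Metric Complex
open scoped ENNReal ComplexConjugate

namespace Pool.Agent.Helper35

/-- Coefficients of the test polynomial. -/
noncomputable def xc (j : ℕ) : ℝ :=
  if j = 0 then 191102976 / 25 ^ 6 else
  if j = 1 then 81285120 / 25 ^ 6 else
  if j = 2 then -56730240 / 25 ^ 6 else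
  if j = 3 then 40590865 / 25 ^ 6 else
  if j = 4 then -28365120 / 25 ^ 6 else
  if j = 5 then 16257024 / 25 ^ 6 else 0

/-- the value of the test polynomial -/
noncomputable def xval (z : ℂ) : ℂ := ∑ j ∈ Finset.range 6, (xc j : ℂ) * z ^ j

theorem rot_step (c s : ℝ) (hcs : c ^ 2 + s ^ 2 = 1) (P Q z : ℂ) (hz : ‖z‖ = 1) :
    ‖c * P - s * (z * Q)‖ ^ 2 + ‖s * P + c * (z * Q)‖ ^ 2 = ‖P‖ ^ 2 + ‖Q‖ ^ 2 := by
  have h1 : ‖z * Q‖ ^ 2 = ‖Q‖ ^ 2 := by rw [norm_mul, hz, one_mul]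
  rw [← h1]
  generalize z * Q = R
  rw [← Complex.normSq_eq_norm_sq, ← Complex.normSq_eq_norm_sq, ← Complex.normSq_eq_norm_sq,
    ← Complex.normSq_eq_norm_sq]
  simp only [Complex.normSq_apply, Complex.sub_re, Complex.sub_im, Complex.add_re, Complex.add_im,
    Complex.re_ofReal_mul, Complex.im_ofReal_mul]
  linear_combination (P.re * P.re + P.im * P.im + R.re * R.re + R.im * R.im) * hcs

theorem norm_xval_le {z : ℂ} (hz : ‖z‖ = 1) : ‖xval z‖ ≤ 1 := by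
  have hcs : (24 / 25 : ℝ) ^ 2 + (7 / 25 : ℝ) ^ 2 = 1 := by norm_num
  have hcs' : (24 / 25 : ℝ) ^ 2 + (-7 / 25 : ℝ) ^ 2 = 1 := by norm_num
  set P0 : ℂ := ((24 / 25 : ℝ) : ℂ) with hP0
  set Q0 : ℂ := ((7 / 25 : ℝ) : ℂ) with hQ0
  have h0 : ‖P0‖ ^ 2 + ‖Q0‖ ^ 2 = 1 := by
    rw [hP0, hQ0, Complex.norm_real, Complex.norm_real, Real.norm_eq_abs, Real.norm_eq_abs,
      sq_abs, sq_abs]
    norm_num
  have h1 := rot_step _ _ hcs' P0 Q0 z hz
  set P1 : ℂ := ((24 / 25 : ℝ) : ℂ) * P0 - ((-7 / 25 : ℝ) : ℂ) * (z * Q0) with hP1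
  set Q1 : ℂ := ((-7 / 25 : ℝ) : ℂ) * P0 + ((24 / 25 : ℝ) : ℂ) * (z * Q0) with hQ1
  have h2 := rot_step _ _ hcs P1 Q1 z hz
  set P2 : ℂ := ((24 / 25 : ℝ) : ℂ) * P1 - ((7 / 25 : ℝ) : ℂ) * (z * Q1) with hP2
  set Q2 : ℂ := ((7 / 25 : ℝ) : ℂ) * P1 + ((24 / 25 : ℝ) : ℂ) * (z * Q1) with hQ2
  have h3 := rot_step _ _ hcs' P2 Q2 z hz
  set P3 : ℂ := ((24 / 25 : ℝ) : ℂ) * P2 - ((-7 / 25 : ℝ) : ℂ) * (z * Q2) with hP3
  set Q3 : ℂ := ((-7 / 25 : ℝ) : ℂ) * P2 + ((24 / 25 : ℝ) : ℂ) * (z * Q2) with hQ3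
  have h4 := rot_step _ _ hcs P3 Q3 z hz
  set P4 : ℂ := ((24 / 25 : ℝ) : ℂ) * P3 - ((7 / 25 : ℝ) : ℂ) * (z * Q3) with hP4
  set Q4 : ℂ := ((7 / 25 : ℝ) : ℂ) * P3 + ((24 / 25 : ℝ) : ℂ) * (z * Q3) with hQ4
  have h5 := rot_step _ _ hcs' P4 Q4 z hz
  set P5 : ℂ := ((24 / 25 : ℝ) : ℂ) * P4 - ((-7 / 25 : ℝ) : ℂ) * (z * Q4) with hP5
  have h6 : ‖P5‖ ^ 2 ≤ 1 := by nlinarith [sq_nonneg ‖((-7 / 25 : ℝ) : ℂ) * P4 + ((24 / 25 : ℝ) : ℂ) * (z * Q4)‖]
  have h7 : xval z = P5 := by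
    simp only [xval, xc, Finset.sum_range_succ, Finset.sum_range_zero, hP5, hP4, hQ4, hP3, hQ3,
      hP2, hQ2, hP1, hQ1, hP0, hQ0]
    push_cast
    norm_num
    ring
  rw [h7]
  nlinarith [norm_nonneg P5]

theorem fourier_arg_add (l : ℤ) (a b : T1) :
    (fourier l (a + b) : ℂ) = fourier l a * fourier l b := by
  simp only [fourier_apply, smul_add, AddCircle.toCircle_add, Circle.coe_mul]

theorem fourier_arg_neg (l : ℤ) (b : T1) : (fourier l (-b) : ℂ) = fourier (-l) b := by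
  simp only [fourier_apply, smul_neg, neg_smul]

/-- A positive trigonometric polynomial kernel. -/
noncomputable def kerG (m : ℕ) (θ : T1) : ℝ :=
  ‖1 + (fourier 1 θ : ℂ)‖ ^ (2 * m) / ((2 * m).choose m : ℝ)

theorem continuous_kerG (m : ℕ) : Continuous (kerG m) := by
  unfold kerG
  have : Continuous fun θ : T1 => (fourier 1 θ : ℂ) := (fourier 1).continuous
  fun_prop

theorem kerG_nonneg (m : ℕ) (θ : T1) : 0 ≤ kerG m θ := by unfold kerG; positivity

theorem kerG_le (m : ℕ) (θ : T1) : kerG m θ ≤ 4 ^ m := by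
  unfold kerG
  have h1 : (1 : ℝ) ≤ ((2 * m).choose m : ℝ) := by
    exact_mod_cast Nat.choose_pos (by omega)
  have h2 : ‖1 + (fourier 1 θ : ℂ)‖ ≤ 2 := by
    refine (norm_add_le _ _).trans ?_
    rw [norm_fourier_one]; norm_num
  calc ‖1 + (fourier 1 θ : ℂ)‖ ^ (2 * m) / ((2 * m).choose m : ℝ)
      ≤ ‖1 + (fourier 1 θ : ℂ)‖ ^ (2 * m) := div_le_self (by positivity) h1
    _ ≤ 2 ^ (2 * m) := pow_le_pow_left₀ (norm_nonneg _) h2 _
    _ = 4 ^ m := by rw [pow_mul]; norm_num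

/-- Coefficients of the kernel. -/
noncomputable def gc (m j : ℕ) : ℝ := ((2 * m).choose j : ℝ) / ((2 * m).choose m : ℝ)

theorem kerG_expand (m : ℕ) (θ : T1) :
    (kerG m θ : ℂ) = ∑ j : Fin (2 * m + 1), (gc m j : ℂ) * fourier ((j : ℤ) - (m : ℤ)) θ := by
  set z : ℂ := fourier 1 θ with hz
  have hz1 : ‖z‖ = 1 := norm_fourier_one θ
  have hzz : z * conj z = 1 := by
    rw [Complex.mul_conj, Complex.normSq_eq_norm_sq, hz1]; simp
  have h1 : ((‖1 + z‖ ^ (2 * m) : ℝ) : ℂ) = (z + 1) ^ (2 * m) * conj z ^ m := by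
    rw [pow_mul, pow_mul, ← mul_pow]
    push_cast
    congr 1
    have : ((‖1 + z‖ : ℂ)) ^ 2 = (1 + z) * conj (1 + z) := by
      rw [Complex.mul_conj, Complex.normSq_eq_norm_sq]; push_cast; ring
    rw [this, map_add, map_one]
    linear_combination (-z - 1) * hzz
  have h2 : ∀ j : ℕ, (fourier ((j : ℤ) - (m : ℤ)) θ : ℂ) = z ^ j * conj z ^ m := by
    intro j
    rw [sub_eq_add_neg, fourier_add, fourier_natCast, fourier_neg, fourier_natCast, map_pow]
  have h3 : ((kerG m θ : ℝ) : ℂ)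
      = ((‖1 + z‖ ^ (2 * m) : ℝ) : ℂ) / (((2 * m).choose m : ℝ) : ℂ) := by
    unfold kerG; push_cast; rfl
  rw [h3, h1, add_pow,
    Fin.sum_univ_eq_sum_range (fun j : ℕ => (gc m j : ℂ) * fourier ((j : ℤ) - (m : ℤ)) θ),
    Finset.sum_mul, Finset.sum_div]
  refine Finset.sum_congr rfl fun j _ => ?_
  rw [h2, gc]
  push_cast
  ring

/-- Product kernel, as a real function on the infinite torus. -/
noncomputable def Vt {n : ℕ} (m : ℕ) (t : Fin n → T1) (ω : Om) : ℝ := ∏ k, kerG m (t k - ω k)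

theorem continuous_Vt {n : ℕ} (m : ℕ) (t : Fin n → T1) : Continuous (Vt m t) :=
  continuous_finsetProd _ fun k _ =>
    (continuous_kerG m).comp (continuous_const.sub (continuous_apply _))

theorem Vt_nonneg {n : ℕ} (m : ℕ) (t : Fin n → T1) (ω : Om) : 0 ≤ Vt m t ω :=
  Finset.prod_nonneg fun _ _ => kerG_nonneg _ _

theorem Vt_le {n : ℕ} (m : ℕ) (t : Fin n → T1) (ω : Om) : Vt m t ω ≤ (4 ^ m) ^ n := by
  refine (Finset.prod_le_prod (fun _ _ => kerG_nonneg _ _) (fun k _ => kerG_le m _)).trans ?_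
  simp

/-- Coefficient of the character in the expansion of the product kernel. -/
noncomputable def gcoef {n : ℕ} (m : ℕ) (t : Fin n → T1) (δ : Fin n → Fin (2 * m + 1)) : ℂ :=
  ∏ k, ((gc m (δ k) : ℂ) * fourier (((δ k : ℕ) : ℤ) - (m : ℤ)) (t k))

/-- Frequencies in the expansion. -/
def freq {n : ℕ} (m : ℕ) (δ : Fin n → Fin (2 * m + 1)) : Fin n → ℤ :=
  fun k => ((δ k : ℕ) : ℤ) - (m : ℤ)

theorem Vt_expand {n : ℕ} (m : ℕ) (t : Fin n → T1) (ω : Om) :
    (Vt m t ω : ℂ) = ∑ δ : Fin n → Fin (2 * m + 1), gcoef m t δ * mono (-freq m δ) ω := by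
  unfold Vt
  rw [Complex.ofReal_prod]
  have h1 : ∀ k : Fin n, ((kerG m (t k - ω k) : ℝ) : ℂ) = ∑ j : Fin (2 * m + 1),
      ((gc m j : ℂ) * fourier (((j : ℕ) : ℤ) - (m : ℤ)) (t k))
        * fourier (-(((j : ℕ) : ℤ) - (m : ℤ))) (ω k) := by
    intro k
    rw [kerG_expand]
    refine Finset.sum_congr rfl fun j _ => ?_
    rw [sub_eq_add_neg (t k), fourier_arg_add, fourier_arg_neg]
    ring
  simp only [h1]
  rw [Finset.prod_univ_sum, Fintype.piFinset_univ]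
  refine Finset.sum_congr rfl fun δ _ => ?_
  rw [Finset.prod_mul_distrib]
  rfl

theorem integral_mono_eq {n : ℕ} (κ : Fin n → ℤ) :
    ∫ ω, mono κ ω ∂muT = if κ = 0 then 1 else 0 := integral_prod_fourier n κ

theorem integrable_cont (W : C(Om, ℂ)) : Integrable (fun ω => W ω) muT :=
  W.continuous.integrable_of_hasCompactSupport (HasCompactSupport.of_compactSpace _)

theorem gc_mid (m : ℕ) : gc m m = 1 := by
  unfold gc
  have : ((2 * m).choose m : ℝ) ≠ 0 := by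
    have := Nat.choose_pos (n := 2 * m) (k := m) (by omega)
    exact_mod_cast this.ne'
  exact div_self this

theorem integral_Vt {n : ℕ} (m : ℕ) (t : Fin n → T1) : ∫ ω, Vt m t ω ∂muT = 1 := by
  have h1 : ((∫ ω, Vt m t ω ∂muT : ℝ) : ℂ) = 1 := by
    rw [← integral_complex_ofReal]
    simp only [Vt_expand]
    rw [integral_finsetSum _ fun δ _ => (integrable_cont _).const_mul _]
    simp only [integral_const_mul, integral_mono_eq]
    have h2 : ∀ δ : Fin n → Fin (2 * m + 1), (-freq m δ = 0) ↔ δ = fun _ => ⟨m, by omega⟩ := by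
      intro δ
      rw [funext_iff, funext_iff]
      refine forall_congr' fun k => ?_
      simp only [Pi.neg_apply, freq, Pi.zero_apply, Fin.ext_iff]
      omega
    simp only [h2, mul_ite, mul_one, mul_zero, Finset.sum_ite_eq', Finset.mem_univ, if_true]
    unfold gcoef
    simp [gc_mid]
  exact_mod_cast h1

/-- The kernel as a complex continuous function. -/
noncomputable def Wt {n : ℕ} (m : ℕ) (t : Fin n → T1) : C(Om, ℂ) where
  toFun ω := (Vt m t ω : ℂ)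
  continuous_toFun := Complex.continuous_ofReal.comp (continuous_Vt m t)

section Hardy

variable {p : ℝ≥0∞} [Fact (1 ≤ p)]

theorem norm_pair_Wt_le {n : ℕ} (hptop : p ≠ ∞) (m : ℕ) (t : Fin n → T1) (f : Lp ℂ p muT) :
    ‖pair hptop (Wt m t) f‖ ≤ ((4 ^ m) ^ n : ℝ) ^ (1 / p).toReal * ‖f‖ := by
  rw [pair_apply]
  refine norm_integral_mul_le Fact.out hptop f _ (Vt m t) (continuous_Vt m t) (Vt_nonneg m t)
    (integral_Vt m t) _ (Vt_le m t) fun ω => ?_
  change ‖((Vt m t ω : ℝ) : ℂ)‖ ≤ _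
  rw [Complex.norm_real, Real.norm_of_nonneg (Vt_nonneg m t ω)]

theorem pair_Wt_expand {n : ℕ} (hptop : p ≠ ∞) (m : ℕ) (t : Fin n → T1) (f : Lp ℂ p muT) :
    pair hptop (Wt m t) f = ∑ δ : Fin n → Fin (2 * m + 1), gcoef m t δ *
      pair hptop (mono (-freq m δ)) f := by
  rw [pair_apply]
  have h1 : ∀ ω, (f : Om → ℂ) ω * Wt m t ω
      = ∑ δ : Fin n → Fin (2 * m + 1), gcoef m t δ * ((f : Om → ℂ) ω * mono (-freq m δ) ω) := by
    intro ω
    change (f : Om → ℂ) ω * ((Vt m t ω : ℝ) : ℂ) = _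
    rw [Vt_expand, Finset.mul_sum]
    refine Finset.sum_congr rfl fun δ _ => ?_
    ring
  simp only [h1]
  rw [integral_finsetSum _ fun δ _ => (integrable_mul_cont f _).const_mul _]
  simp only [integral_const_mul]
  rfl

/-- the coefficient array of the functional on the Hardy space -/
noncomputable def arrU {n E : ℕ} (hptop : p ≠ ∞) (f : Lp ℂ p muT) (γ : Fin n → Fin (E + 4)) : ℂ :=
  (∏ k, (gc (E + 3) (E + 3 + γ k) : ℂ)) * pair hptop (mono (-fun k => ((γ k : ℕ) : ℤ))) f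

theorem pair_Wt_eq_trigP {n E : ℕ} (hptop : p ≠ ∞) (t : Fin n → T1) (f : Lp ℂ p muT)
    (hf : f ∈ hardy p hptop) :
    pair hptop (Wt (E + 3) t) f = trigP (arrU (E := E) hptop f) t := by
  rw [pair_Wt_expand]
  unfold trigP
  symm
  set ι : (Fin n → Fin (E + 4)) → (Fin n → Fin (2 * (E + 3) + 1)) := fun γ k =>
    ⟨E + 3 + γ k, by have := (γ k).isLt; omega⟩ with hι
  refine Fintype.sum_of_injective ι ?_ _ _ ?_ ?_
  · intro γ γ' h
    funext k
    have := congrFun h k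
    simp only [hι, Fin.mk.injEq] at this
    exact Fin.ext (by omega)
  · intro δ hδ
    obtain ⟨k0, hk0⟩ : ∃ k, ((δ k : ℕ) : ℤ) - ((E + 3 : ℕ) : ℤ) < 0 := by
      by_contra hcon
      push Not at hcon
      apply hδ
      refine ⟨fun k => ⟨δ k - (E + 3), by have := (δ k).isLt; omega⟩, ?_⟩
      funext k
      have := hcon k
      apply Fin.ext
      simp only [hι]
      omega
    rw [hardy_coeff_eq_zero hptop (freq (E + 3) δ) k0 hk0 f hf, mul_zero]
  · intro γ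
    unfold arrU gcoef
    have h1 : freq (E + 3) (ι γ) = fun k => ((γ k : ℕ) : ℤ) := by
      funext k
      simp only [freq, hι]
      push_cast
      ring
    rw [h1, Finset.prod_mul_distrib]
    have h2 : ∀ k, ((((ι γ k : Fin (2 * (E + 3) + 1)) : ℕ) : ℤ) - ((E + 3 : ℕ) : ℤ))
        = ((γ k : ℕ) : ℤ) := fun k => congrFun h1 k
    simp only [h2]
    have h3 : ∀ k, ((ι γ k : Fin (2 * (E + 3) + 1)) : ℕ) = E + 3 + γ k := fun k => rfl
    simp only [h3]
    ring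

end Hardy

end Pool.Agent.Helper35
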