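import Mathlib
import Pool.Agent.helper35.TestFunctions

/-!
`H^p` of the infinite torus has no unconditional basis for large `p`.
-/

set_option autoImplicit false

open Filter Topology MeasureTheory Metric Complex
open scoped ENNReal ComplexConjugate

namespace Pool.Agent.Helper35

/-- coefficient of the product test function -/
noncomputable def xcoef {n E : ℕ} (s : Fin n → T1) (γ : Fin n → Fin (E + 4)) : ℂ :=
  ∏ k, ((xc (γ k) : ℂ) * fourier ((γ k : ℕ) : ℤ) (s k))

/-- exponents as integers -/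
def toZ {n D : ℕ} (γ : Fin n → Fin D) : Fin n → ℤ := fun k => ((γ k : ℕ) : ℤ)

/-- The product test function. -/
noncomputable def XS {n : ℕ} (E : ℕ) (s : Fin n → T1) : C(Om, ℂ) :=
  ∑ γ : Fin n → Fin (E + 4), xcoef s γ • mono (toZ γ)

theorem XS_apply {n : ℕ} (E : ℕ) (hE : 2 ≤ E) (s : Fin n → T1) (ω : Om) :
    XS E s ω = ∏ k, xval (fourier 1 (s k) * fourier 1 (ω k)) := by
  have h1 : ∀ k : Fin n, xval (fourier 1 (s k) * fourier 1 (ω k)) =
      ∑ j : Fin (E + 4), ((xc j : ℂ) * fourier ((j : ℕ) : ℤ) (s k)) *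
        fourier ((j : ℕ) : ℤ) (ω k) := by
    intro k
    rw [Fin.sum_univ_eq_sum_range (fun j : ℕ => ((xc j : ℂ) * fourier ((j : ℕ) : ℤ) (s k)) *
        fourier ((j : ℕ) : ℤ) (ω k))]
    unfold xval
    have h2 : ∀ j : ℕ, (xc j : ℂ) * (fourier 1 (s k) * fourier 1 (ω k)) ^ j =
        ((xc j : ℂ) * fourier ((j : ℕ) : ℤ) (s k)) * fourier ((j : ℕ) : ℤ) (ω k) := by
      intro j
      rw [fourier_natCast, fourier_natCast, mul_pow]
      ring
    simp only [h2]
    refine Finset.sum_subset (Finset.range_mono (by omega)) ?_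
    intro j _ hj
    have hj6 : 6 ≤ j := by simpa using hj
    have : xc j = 0 := by
      unfold xc
      rw [if_neg (by omega), if_neg (by omega), if_neg (by omega), if_neg (by omega),
        if_neg (by omega), if_neg (by omega)]
    simp [this]
  simp only [h1]
  rw [Finset.prod_univ_sum, Fintype.piFinset_univ]
  unfold XS
  rw [ContinuousMap.sum_apply]
  refine Finset.sum_congr rfl fun γ _ => ?_
  rw [Finset.prod_mul_distrib]
  rfl

theorem norm_XS_le {n : ℕ} (E : ℕ) (hE : 2 ≤ E) (s : Fin n → T1) : ‖XS E s‖ ≤ 1 := by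
  rw [ContinuousMap.norm_le _ zero_le_one]
  intro ω
  rw [XS_apply E hE, norm_prod]
  refine Finset.prod_le_one (fun _ _ => norm_nonneg _) fun k _ => norm_xval_le ?_
  rw [norm_mul, norm_fourier_one, norm_fourier_one, one_mul]

section Hardy

variable {p : ℝ≥0∞} [Fact (1 ≤ p)]

theorem norm_toLp_le (F : C(Om, ℂ)) (hF : ‖F‖ ≤ 1) :
    ‖(ContinuousMap.toLp p muT ℂ F : Lp ℂ p muT)‖ ≤ 1 := by
  have h1 := (ContinuousMap.toLp p muT ℂ : C(Om, ℂ) →L[ℂ] Lp ℂ p muT).le_opNorm F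
  have h2 := ContinuousMap.toLp_norm_le (p := p) (E := ℂ) (𝕜 := ℂ) muT
  have h3 : (measureUnivNNReal muT : ℝ) = 1 := by
    simp [measureUnivNNReal]
  rw [h3, Real.one_rpow] at h2
  calc _ ≤ _ := h1
    _ ≤ 1 * 1 := mul_le_mul h2 hF (norm_nonneg _) zero_le_one
    _ = 1 := one_mul 1

/-- monomials as elements of the Hardy space -/
noncomputable def monoH {n : ℕ} (hptop : p ≠ ∞) (E : ℕ) (γ : Fin n → Fin (E + 4)) :
    hardy p hptop :=
  ⟨ContinuousMap.toLp p muT ℂ (mono (toZ γ)), mono_mem hptop _ fun _ => Int.natCast_nonneg _⟩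

/-- the product test function as element of the Hardy space -/
noncomputable def XH {n : ℕ} (hptop : p ≠ ∞) (E : ℕ) (s : Fin n → T1) : hardy p hptop :=
  ∑ γ : Fin n → Fin (E + 4), xcoef s γ • monoH hptop E γ

theorem XH_coe {n : ℕ} (hptop : p ≠ ∞) (E : ℕ) (s : Fin n → T1) :
    (XH hptop E s : Lp ℂ p muT) = ContinuousMap.toLp p muT ℂ (XS E s) := by
  unfold XH XS
  rw [Submodule.coe_sum, map_sum]
  refine Finset.sum_congr rfl fun γ _ => ?_
  rw [Submodule.coe_smul, map_smul]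
  rfl

theorem norm_XH_le {n : ℕ} (hptop : p ≠ ∞) (E : ℕ) (hE : 2 ≤ E) (s : Fin n → T1) :
    ‖XH hptop E s‖ ≤ 1 := by
  rw [← Submodule.norm_coe, XH_coe]
  exact norm_toLp_le _ (norm_XS_le E hE s)

/-- The one-variable gain. -/
noncomputable def tau (E : ℕ) : ℝ := ∑ j : Fin (E + 4), lam j * xc j * gc (E + 3) (E + 3 + j)

/-- The functional on the Hardy space obtained by restriction. -/
noncomputable def resF (hptop : p ≠ ∞) (W : C(Om, ℂ)) : hardy p hptop →L[ℂ] ℂ :=
  (pair hptop W).comp (hardy p hptop).subtypeL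

theorem resF_apply (hptop : p ≠ ∞) (W : C(Om, ℂ)) (f : hardy p hptop) :
    resF hptop W f = pair hptop W (f : Lp ℂ p muT) := rfl

theorem norm_resF_Wt_le {n : ℕ} (hptop : p ≠ ∞) (m : ℕ) (t : Fin n → T1) :
    ‖resF (p := p) hptop (Wt m t)‖ ≤ ((4 ^ m) ^ n : ℝ) ^ (1 / p).toReal := by
  refine ContinuousLinearMap.opNorm_le_bound _ (by positivity) fun f => ?_
  rw [resF_apply, ← Submodule.norm_coe]
  exact norm_pair_Wt_le hptop m t _

theorem integrable_T {n : ℕ} (g : (Fin n → T1) → ℝ) (hg : Continuous g) : Integrable g (piT n) :=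
  hg.integrable_of_hasCompactSupport (HasCompactSupport.of_compactSpace _)

/-- If a product of two nonnegative families is bounded pointwise in sum, so are the integrals. -/
theorem sum_integral_le {n : ℕ} (S : Finset ℕ) (a b : ℕ → (Fin n → T1) → ℝ)
    (ha : ∀ i, Continuous (a i)) (hb : ∀ i, Continuous (b i)) (R : ℝ)
    (h : ∀ t s, ∑ i ∈ S, a i t * b i s ≤ R) :
    ∑ i ∈ S, (∫ t, a i t ∂(piT n)) * (∫ s, b i s ∂(piT n)) ≤ R := by
  have h1 : ∀ t, ∑ i ∈ S, a i t * (∫ s, b i s ∂(piT n)) ≤ R := by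
    intro t
    have h2 : ∑ i ∈ S, a i t * (∫ s, b i s ∂(piT n)) = ∫ s, ∑ i ∈ S, a i t * b i s ∂(piT n) := by
      rw [integral_finsetSum _ fun i _ => (integrable_T _ (hb i)).const_mul _]
      simp only [integral_const_mul]
    rw [h2]
    have h3 := integral_mono (μ := piT n)
      (f := fun s => ∑ i ∈ S, a i t * b i s) (g := fun _ => R)
      (integrable_T _ (continuous_finsetSum _ fun i _ => continuous_const.mul (hb i)))
      (integrable_const _) (fun s => h t s)
    simpa using h3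
  have h2 : ∑ i ∈ S, (∫ t, a i t ∂(piT n)) * (∫ s, b i s ∂(piT n))
      = ∫ t, ∑ i ∈ S, a i t * (∫ s, b i s ∂(piT n)) ∂(piT n) := by
    rw [integral_finsetSum _ fun i _ => (integrable_T _ (ha i)).mul_const _]
    simp only [integral_mul_const]
  rw [h2]
  have h3 := integral_mono (μ := piT n)
    (f := fun t => ∑ i ∈ S, a i t * (∫ s, b i s ∂(piT n))) (g := fun _ => R)
    (integrable_T _ (continuous_finsetSum _ fun i _ => (ha i).mul continuous_const))
    (integrable_const _) h1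
  simpa using h3

/-- Main estimate. -/
theorem main_estimate (hptop : p ≠ ∞) (E : ℕ) (hE : 2 ≤ E) (e : ℕ → hardy p hptop)
    (h : ∀ x : hardy p hptop, ∃! c : ℕ → ℂ, HasSum (fun n => c n • e n) x) :
    ∃ K : ℝ, 0 ≤ K ∧ ∀ n : ℕ,
      tau E ^ n ≤ K * ((4 ^ (E + 3)) ^ n : ℝ) ^ (1 / p).toReal := by
  have : CompleteSpace (hardy p hptop) := (isClosed_hardy hptop).completeSpace_coe
  obtain ⟨c, K, hK0, hc, hadd, hsmul, hbound⟩ := uncond_bound e h
  refine ⟨K, hK0, fun n => ?_⟩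
  -- linearity of the coefficients
  let cl : hardy p hptop →ₗ[ℂ] (ℕ → ℂ) :=
    { toFun := c, map_add' := hadd, map_smul' := hsmul }
  have hcl : ∀ x, cl x = c x := fun _ => rfl
  set U : ℕ → (Fin n → Fin (E + 4)) → ℂ := fun i => arrU (E := E) hptop (e i : Lp ℂ p muT) with hU
  set V : ℕ → (Fin n → Fin (E + 4)) → ℂ := fun i γ =>
    (∏ k, (xc (γ k) : ℂ)) * c (monoH hptop E γ) i with hV
  have hUt : ∀ i t, trigP (U i) t = resF hptop (Wt (E + 3) t) (e i) := by
    intro i t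
    rw [resF_apply, pair_Wt_eq_trigP hptop t _ (e i).2]
  have hVs : ∀ i s, trigP (V i) s = c (XH hptop E s) i := by
    intro i s
    rw [← hcl, XH, map_sum, Finset.sum_apply]
    unfold trigP
    refine Finset.sum_congr rfl fun γ _ => ?_
    rw [map_smul, Pi.smul_apply, hcl, smul_eq_mul, xcoef, Finset.prod_mul_distrib]
    simp only [hV]
    ring
  -- the trace
  have htr : ∀ γ : Fin n → Fin (E + 4),
      HasSum (fun i => c (monoH hptop E γ) i * resF hptop (mono (-toZ γ)) (e i)) 1 := by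
    intro γ
    have h1 := (hc (monoH hptop E γ)).mapL (resF hptop (mono (-toZ γ)))
    simp only [map_smul, smul_eq_mul] at h1
    have h2 : resF hptop (mono (-toZ γ)) (monoH hptop E γ) = 1 := by
      rw [resF_apply]
      have := pair_mono_mono (p := p) hptop (toZ γ) (toZ γ)
      rw [if_pos rfl] at this
      exact this
    rw [h2] at h1
    exact h1
  set wt : (Fin n → Fin (E + 4)) → ℝ := fun γ => ∏ k, lam (γ k) with hwt
  have hwt0 : ∀ γ, 0 ≤ wt γ := fun γ => Finset.prod_nonneg fun _ _ => lam_nonneg _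
  have htau : ((tau E : ℝ) : ℂ) ^ n = ∑ γ : Fin n → Fin (E + 4),
      (wt γ : ℂ) * (∏ k, (xc (γ k) : ℂ)) * (∏ k, (gc (E + 3) (E + 3 + γ k) : ℂ)) * 1 := by
    rw [tau]
    push_cast
    rw [Fintype.sum_pow]
    refine Finset.sum_congr rfl fun γ _ => ?_
    rw [Finset.prod_mul_distrib, Finset.prod_mul_distrib, hwt]
    push_cast
    ring
  have hsum : HasSum (fun i => ∑ γ : Fin n → Fin (E + 4), (wt γ : ℂ) * V i γ * U i γ)
      (((tau E : ℝ) : ℂ) ^ n) := by
    rw [htau]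
    have hfun : (fun i => ∑ γ : Fin n → Fin (E + 4), (wt γ : ℂ) * V i γ * U i γ) =
        fun i => ∑ γ : Fin n → Fin (E + 4),
          ((wt γ : ℂ) * (∏ k, (xc (γ k) : ℂ)) * (∏ k, (gc (E + 3) (E + 3 + γ k) : ℂ))) *
            (c (monoH hptop E γ) i * resF hptop (mono (-toZ γ)) (e i)) := by
      funext i
      refine Finset.sum_congr rfl fun γ _ => ?_
      simp only [hV, hU, arrU]
      rw [resF_apply]
      have : mono (-fun k => ((γ k : ℕ) : ℤ)) = mono (-toZ γ) := rfl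
      rw [this]
      ring
    rw [hfun]
    exact hasSum_sum fun γ _ => (htr γ).mul_left
      ((wt γ : ℂ) * (∏ k, (xc (γ k) : ℂ)) * (∏ k, (gc (E + 3) (E + 3 + γ k) : ℂ)))
  set R : ℝ := ((4 ^ (E + 3)) ^ n : ℝ) ^ (1 / p).toReal with hR
  have hR0 : 0 ≤ R := by positivity
  set A : ℕ → ℝ := fun i => ∫ t, ‖trigP (U i) t‖ ∂(piT n) with hA
  set B : ℕ → ℝ := fun i => ∫ s, ‖trigP (V i) s‖ ∂(piT n) with hB
  have hA0 : ∀ i, 0 ≤ A i := fun i => integral_nonneg fun _ => norm_nonneg _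
  have hB0 : ∀ i, 0 ≤ B i := fun i => integral_nonneg fun _ => norm_nonneg _
  have hterm : ∀ i, ‖∑ γ : Fin n → Fin (E + 4), (wt γ : ℂ) * V i γ * U i γ‖ ≤ A i * B i := by
    intro i
    have h1 : ‖∑ γ : Fin n → Fin (E + 4), (wt γ : ℂ) * V i γ * U i γ‖
        ≤ ∑ γ : Fin n → Fin (E + 4), wt γ * ‖U i γ‖ * ‖V i γ‖ := by
      refine (norm_sum_le _ _).trans (Finset.sum_le_sum fun γ _ => ?_)
      rw [norm_mul, norm_mul, Complex.norm_real, Real.norm_of_nonneg (hwt0 γ)]
      exact le_of_eq (by ring)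
    have h2 : (∑ γ : Fin n → Fin (E + 4), wt γ * ‖U i γ‖ * ‖V i γ‖) ^ 2 ≤ (A i * B i) ^ 2 := by
      have h3 := Finset.sum_mul_sq_le_sq_mul_sq Finset.univ
        (fun γ => Real.sqrt (wt γ) * ‖U i γ‖) (fun γ => Real.sqrt (wt γ) * ‖V i γ‖)
      have h4 : ∀ γ, Real.sqrt (wt γ) * ‖U i γ‖ * (Real.sqrt (wt γ) * ‖V i γ‖)
          = wt γ * ‖U i γ‖ * ‖V i γ‖ := by
        intro γ
        have := Real.mul_self_sqrt (hwt0 γ)
        calc _ = (Real.sqrt (wt γ) * Real.sqrt (wt γ)) * ‖U i γ‖ * ‖V i γ‖ := by ring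
          _ = _ := by rw [this]
      simp only [h4, mul_pow, Real.sq_sqrt (hwt0 _)] at h3
      refine h3.trans ?_
      rw [mul_pow]
      refine mul_le_mul (ineq_n E n (U i)) (ineq_n E n (V i)) ?_ (sq_nonneg _)
      exact Finset.sum_nonneg fun γ _ => mul_nonneg (hwt0 γ) (sq_nonneg _)
    exact h1.trans (le_of_sq_le_sq h2 (mul_nonneg (hA0 i) (hB0 i)))
  have hfin : ∀ S : Finset ℕ,
      ‖∑ i ∈ S, ∑ γ : Fin n → Fin (E + 4), (wt γ : ℂ) * V i γ * U i γ‖ ≤ K * R := by
    intro S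
    refine (norm_sum_le _ _).trans ((Finset.sum_le_sum fun i _ => hterm i).trans ?_)
    refine sum_integral_le S (fun i t => ‖trigP (U i) t‖) (fun i s => ‖trigP (V i) s‖)
      (fun i => (continuous_trigP _).norm) (fun i => (continuous_trigP _).norm) (K * R) ?_
    intro t s
    simp only [hUt, hVs]
    refine (hbound (resF hptop (Wt (E + 3) t)) (XH hptop E s) S).trans ?_
    have h1 := norm_resF_Wt_le (p := p) hptop (E + 3) t
    have h2 := norm_XH_le (p := p) hptop E hE s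
    calc K * ‖resF hptop (Wt (E + 3) t)‖ * ‖XH hptop E s‖
        ≤ K * R * 1 := by gcongr
      _ = K * R := mul_one _
  have hlim : ‖((tau E : ℝ) : ℂ) ^ n‖ ≤ K * R := by
    have h1 : Tendsto (fun S : Finset ℕ =>
        ‖∑ i ∈ S, ∑ γ : Fin n → Fin (E + 4), (wt γ : ℂ) * V i γ * U i γ‖) atTop
        (𝓝 ‖((tau E : ℝ) : ℂ) ^ n‖) := by
      have := hsum
      rw [HasSum, SummationFilter.unconditional_filter] at this
      exact this.norm
    exact le_of_tendsto h1 (Eventually.of_forall hfin)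
  rw [norm_pow, Complex.norm_real] at hlim
  calc tau E ^ n ≤ |tau E ^ n| := le_abs_self _
    _ = ‖tau E‖ ^ n := by rw [abs_pow, Real.norm_eq_abs]
    _ ≤ K * R := hlim

theorem choose80_40 : (Nat.choose 80 40) = 107507208733336176461620 := by norm_num [Nat.choose]
theorem choose80_41 : (Nat.choose 80 41) = 104885081691059684352800 := by norm_num [Nat.choose]
theorem choose80_43 : (Nat.choose 80 43) = 86068488962431036661600 := by norm_num [Nat.choose]

theorem tau_eq (E : ℕ) : tau E = xc 0 * gc (E + 3) (E + 3) + xc 1 * gc (E + 3) (E + 4) / 2 +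
    xc 3 * gc (E + 3) (E + 6) / 2 := by
  unfold tau
  rw [Fin.sum_univ_eq_sum_range (fun j : ℕ => lam j * xc j * gc (E + 3) (E + 3 + j)),
    Finset.sum_range_succ', Finset.sum_range_succ', Finset.sum_range_succ',
    Finset.sum_range_succ']
  have : ∀ j, lam (j + 1 + 1 + 1 + 1) = 0 := by
    intro j
    simp [lam]
  simp only [this, zero_mul, Finset.sum_const_zero]
  simp [lam]
  ring

theorem tau37 : 1.011 < tau 37 := by
  rw [tau_eq]
  norm_num [gc, xc, choose80_40, choose80_41, choose80_43]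

/-- For `5600 ≤ p < ∞` the Hardy space `H^p` of the infinite torus has no unconditional basis. -/
theorem no_uncond_basis (hptop : p ≠ ∞) (hp : 5600 ≤ p) (e : ℕ → hardy p hptop)
    (h : ∀ x : hardy p hptop, ∃! c : ℕ → ℂ, HasSum (fun n => c n • e n) x) : False := by
  obtain ⟨K, hK0, hK⟩ := main_estimate hptop 37 (by norm_num) e h
  set a : ℝ := (1 / p).toReal with ha
  have ha0 : 0 ≤ a := ENNReal.toReal_nonneg
  have ha1 : a ≤ 1 / 5600 := by
    have h1 : (1 / p).toReal ≤ (1 / (5600 : ℝ≥0∞)).toReal := by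
      refine ENNReal.toReal_mono ?_ (ENNReal.div_le_div_left hp 1)
      simp
    refine h1.trans (le_of_eq ?_)
    simp
  set r : ℝ := (4 ^ (37 + 3) : ℝ) ^ a with hr
  have hr0 : 0 < r := by positivity
  have hr1 : r ≤ 1.01 := by
    have h1 : r ≤ (4 ^ (37 + 3) : ℝ) ^ (1 / 5600 : ℝ) :=
      Real.rpow_le_rpow_of_exponent_le (by norm_num) ha1
    refine h1.trans ?_
    have h2 : (4 ^ (37 + 3) : ℝ) ≤ (1.01 : ℝ) ^ (5600 : ℕ) := by
      have h3 : (4 : ℝ) ≤ (1.01 : ℝ) ^ (140 : ℕ) := by norm_num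
      calc (4 ^ (37 + 3) : ℝ) = 4 ^ (40 : ℕ) := by norm_num
        _ ≤ ((1.01 : ℝ) ^ (140 : ℕ)) ^ (40 : ℕ) := pow_le_pow_left₀ (by norm_num) h3 40
        _ = (1.01 : ℝ) ^ (5600 : ℕ) := by rw [← pow_mul]
    calc (4 ^ (37 + 3) : ℝ) ^ (1 / 5600 : ℝ)
        ≤ ((1.01 : ℝ) ^ (5600 : ℕ)) ^ (1 / 5600 : ℝ) :=
          Real.rpow_le_rpow (by positivity) h2 (by norm_num)
      _ = 1.01 := by
          rw [← Real.rpow_natCast, ← Real.rpow_mul (by norm_num)]
          norm_num
  have hpow : ∀ n : ℕ, ((4 ^ (37 + 3)) ^ n : ℝ) ^ a = r ^ n := by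
    intro n
    rw [hr]
    exact (Real.rpow_pow_comm (by positivity) a n).symm
  have hτ := tau37
  have hq : 1 < tau 37 / r := by
    rw [one_lt_div hr0]
    have : (1.01 : ℝ) < 1.011 := by norm_num
    linarith
  obtain ⟨n, hn⟩ := pow_unbounded_of_one_lt K hq
  have h1 := hK n
  rw [hpow] at h1
  rw [div_pow, lt_div_iff₀ (by positivity)] at hn
  linarith

end Hardy

end Pool.Agent.Helper35
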